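import Mathlib
import Pool.Agent.Helper600R2.CM.CodesXc
import Pool.Agent.Helper600R2.CM.All

/-!
Polynomial-size CNFs on `N` variables for which refutations whose lines are circuits with few gates,
each a `MOD_m` gate of unbounded fan-in (`m` may be composite) or a formula of size `N ^ (2 - ε)`,
need exponentially many lines.
-/

namespace Pool.Agent.Results.MP_c04246_lc.CompositeModuli

/-- Formulas of unbounded depth over `N` variables and the values of gates: `gate i` is the value
of the gate number `i` of a list. -/
inductive Fml (N : ℕ) : Type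
  | const : Bool → Fml N
  | var : Fin N → Fml N
  | gate : ℕ → Fml N
  | neg : Fml N → Fml N
  | and : Fml N → Fml N → Fml N
  | or : Fml N → Fml N → Fml N

/-- Truth value of a formula, where `z` gives the values of the variables and the list `u` the
values of the gates. -/
def Fml.eval {N : ℕ} (z : Fin N → Bool) (u : List Bool) : Fml N → Bool
  | .const b => b
  | .var v => z v
  | .gate i => u.getD i false
  | .neg f => !(f.eval z u)
  | .and f g => f.eval z u && g.eval z u
  | .or f g => f.eval z u || g.eval z u

/-- Size of a formula: the number of occurrences of variables (the occurrences of gates are not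
counted). -/
def Fml.size {N : ℕ} : Fml N → ℕ
  | .const _ => 0
  | .var _ => 1
  | .gate _ => 0
  | .neg f => f.size
  | .and f g => f.size + g.size
  | .or f g => f.size + g.size

/-- A gate of a circuit: a formula, or a gate of unbounded fan-in which counts modulo `m`: the
gate `md c e t` is true iff the sum modulo `m` of the coefficients `c v` of the true variables
and of the coefficients `e i` of the true earlier gates satisfies `t`. -/
inductive Gate (m N : ℕ) : Type
  | fml : Fml N → Gate m N
  | md : (Fin N → ZMod m) → (ℕ → ZMod m) → (ZMod m → Bool) → Gate m N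

/-- Truth value of a gate, where the list `u` gives the values of the earlier gates. -/
def Gate.eval {m N : ℕ} (z : Fin N → Bool) (u : List Bool) : Gate m N → Bool
  | .fml f => f.eval z u
  | .md c e t => t ((∑ v, if z v = true then c v else 0) +
      ∑ i ∈ Finset.range u.length, if u.getD i false = true then e i else 0)

/-- Number of occurrences of variables in a formula gate. -/
def Gate.size {m N : ℕ} : Gate m N → ℕ
  | .fml f => f.size
  | .md _ _ _ => 0

/-- The values of the gates of a circuit.  A circuit is a list of gates; every gate may use the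
values of the gates which stand behind it in the list (number `0` being the next one). -/
def values {m N : ℕ} (z : Fin N → Bool) : List (Gate m N) → List Bool
  | [] => []
  | γ :: l => γ.eval z (values z l) :: values z l

/-- The value of a circuit: the value of the first gate of the list. -/
def value {m N : ℕ} (z : Fin N → Bool) (l : List (Gate m N)) : Bool := (values z l).headD false

/-- A clause over `N` variables: a finite set of literals; the literal `(x, s)` says that the
variable `x` has the value `s`. -/
abbrev Clause (N : ℕ) := Finset (Fin N × Bool)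

/-- The assignment `z` satisfies the clause. -/
def Clause.Holds {N : ℕ} (z : Fin N → Bool) (c : Clause N) : Prop := ∃ l ∈ c, z l.1 = l.2

/-- A refutation of the CNF `F` with `S` lines, each of which is a circuit with at most `g` gates,
every formula gate being of size at most `s`.  Every line is implied by a clause of `F` or by at
most `a` earlier lines, and some line is unsatisfiable. -/
structure Refutation {N : ℕ} (F : Finset (Clause N)) (m a g s S : ℕ) where
  line : Fin S → List (Gate m N)
  length_le : ∀ j, (line j).length ≤ g
  size_le : ∀ j, ∀ γ ∈ line j, γ.size ≤ s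
  sound : ∀ j, (∃ c ∈ F, ∀ z, c.Holds z → value z (line j) = true) ∨
    ∃ P : Finset (Fin S), P.card ≤ a ∧ (∀ p ∈ P, p < j) ∧
      ∀ z, (∀ p ∈ P, value z (line p) = true) → value z (line j) = true
  final : ∃ j, ∀ z, value z (line j) = false

open H542 (T evs leavess comb evs_comb leavess_comb)
open Finset Pool.Agent.Helper600R2.CM
open Pool.Agent.Helper600R2.Quad (HoldsA)

/-- partial inverse of an injection -/
noncomputable def pinv {A : Type} {N : ℕ} (e : A ↪ Fin N) (v : Fin N) : Option A := by
  classical
  exact if h : ∃ w, e w = v then some h.choose else none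

theorem pinv_apply {A : Type} {N : ℕ} (e : A ↪ Fin N) (w : A) : pinv e (e w) = some w := by
  classical
  unfold pinv
  have h : ∃ w', e w' = e w := ⟨w, rfl⟩
  simp only [dif_pos h]
  exact congrArg some (e.injective h.choose_spec)

/-- extension of an assignment by `false` -/
noncomputable def up {A : Type} {N : ℕ} (e : A ↪ Fin N) (z : A → Bool) (v : Fin N) : Bool :=
  match pinv e v with
  | some w => z w
  | none => false

theorem up_apply {A : Type} {N : ℕ} (e : A ↪ Fin N) (z : A → Bool) (w : A) :
    up e z (e w) = z w := by
  unfold up
  rw [pinv_apply]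

/-- negation normal form over `A`, the variables outside `A` being set to `false` and the gates to
the values `U` -/
noncomputable def conv {A : Type} {N : ℕ} (e : A ↪ Fin N) (U : ℕ → Bool) (s : Bool) :
    Fml N → T A ⊕ Bool
  | .const b => .inr (b == s)
  | .var v => match pinv e v with
    | some w => .inl (.lit w s)
    | none => .inr (false == s)
  | .gate i => .inr (U i == s)
  | .neg f => conv e U (!s) f
  | .and f g => comb s (conv e U s f) (conv e U s g)
  | .or f g => comb (!s) (conv e U s f) (conv e U s g)

theorem evs_conv {A : Type} {N : ℕ} (e : A ↪ Fin N) (u : List Bool) (z : A → Bool) (s : Bool)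
    (f : Fml N) : evs z (conv e (fun i => u.getD i false) s f) = (f.eval (up e z) u == s) := by
  induction f generalizing s with
  | const b => rfl
  | var v =>
    simp only [conv, Fml.eval, up]
    cases pinv e v with
    | some w => rfl
    | none => rfl
  | gate i => rfl
  | neg f ih =>
    simp only [conv, Fml.eval, ih]
    cases f.eval (up e z) u <;> cases s <;> rfl
  | and f g ihf ihg =>
    simp only [conv, Fml.eval, evs_comb, ihf, ihg]
    cases f.eval (up e z) u <;> cases g.eval (up e z) u <;> cases s <;> rfl
  | or f g ihf ihg =>
    simp only [conv, Fml.eval, evs_comb, ihf, ihg]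
    cases f.eval (up e z) u <;> cases g.eval (up e z) u <;> cases s <;> rfl

theorem leavess_conv {A : Type} {N : ℕ} (e : A ↪ Fin N) (U : ℕ → Bool) (s : Bool) (f : Fml N) :
    leavess (conv e U s f) ≤ f.size := by
  induction f generalizing s with
  | const b => simp [conv, leavess]
  | var v =>
    simp only [conv, Fml.size]
    cases pinv e v with
    | some w => exact le_rfl
    | none => exact Nat.zero_le _
  | gate i => simp [conv, leavess]
  | neg f ih => exact ih (!s)
  | and f g ihf ihg =>
    exact (leavess_comb _ _ _).trans (add_le_add (ihf s) (ihg s))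
  | or f g ihf ihg =>
    exact (leavess_comb _ _ _).trans (add_le_add (ihf s) (ihg s))

/-- renaming of the variables of a clause -/
def ren {A : Type} {N : ℕ} (e : A ↪ Fin N) (c : Finset (A × Bool)) : Clause N :=
  c.image fun l => (e l.1, l.2)

theorem holds_ren {A : Type} {N : ℕ} (e : A ↪ Fin N) (c : Finset (A × Bool))
    (z : Fin N → Bool) : (ren e c).Holds z ↔ HoldsA (fun w => z (e w)) c := by
  unfold ren Clause.Holds HoldsA
  constructor
  · rintro ⟨l, hl, hz⟩
    rw [mem_image] at hl
    obtain ⟨l', hl', rfl⟩ := hl
    exact ⟨l', hl', hz⟩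
  · rintro ⟨l, hl, hz⟩
    exact ⟨_, mem_image_of_mem _ hl, hz⟩

/-- the linear form of an extended assignment -/
theorem frm_up {A : Type} [Fintype A] {m N : ℕ} (e : A ↪ Fin N) (c : Fin N → ZMod m)
    (z : A → Bool) : (∑ v, if up e z v = true then c v else 0) = frm (fun w => c (e w)) z := by
  classical
  unfold frm
  have h1 : ∑ w : A, (if z w = true then c (e w) else 0) =
      ∑ v ∈ univ.map e, (if up e z v = true then c v else 0) := by
    rw [Finset.sum_map]
    refine Finset.sum_congr rfl (fun w _ => ?_)
    rw [up_apply]
  rw [h1]
  symm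
  apply Finset.sum_subset (Finset.subset_univ _)
  intro v _ hv
  have h2 : pinv e v = none := by
    unfold pinv
    rw [dif_neg]
    rintro ⟨w, hw⟩
    exact hv (Finset.mem_map.mpr ⟨w, mem_univ w, hw⟩)
  simp [up, h2]

/-- run of a list of functions each of which may use the values of the following ones -/
def run {Y : Type} (y : Y) : List (List Bool → Y → Bool) → List Bool
  | [] => []
  | G :: l => G (run y l) y :: run y l

theorem run_length {Y : Type} (y : Y) (l : List (List Bool → Y → Bool)) :
    (run y l).length = l.length := by
  induction l with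
  | nil => rfl
  | cons G l ih => simp [run, ih]

/-- adaptive composition of decision trees -/
theorem adp {V : Type} {g D : ℕ} (l : List (List Bool → (V → Bool) → Bool)) (hg : l.length ≤ g)
    (hl : ∀ G ∈ l, ∀ u : List Bool, u.length ≤ g → QD Cst D (G u)) :
    ∀ (D0 : ℕ) (Φ : List Bool → (V → Bool) → Bool),
      (∀ u, u.length ≤ g → QD Cst D0 (Φ u)) →
      QD Cst (D0 + l.length * D) (fun y => Φ (run y l) y) := by
  induction l with
  | nil =>
    intro D0 Φ hΦ
    simpa [run] using hΦ [] (Nat.zero_le _)
  | cons G l ih =>
    intro D0 Φ hΦ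
    rw [List.length_cons] at hg
    have h1 := ih (by omega) (fun G' hG' => hl G' (List.mem_cons_of_mem _ hG')) (D + D0)
      (fun u y => if h : u.length < g then Φ (G u y :: u) y else false) (by
        intro u hu
        by_cases h : u.length < g
        · simp only [dif_pos h]
          exact M11.subst (hl G (List.mem_cons_self) u hu) D0 (fun b => Φ (b :: u))
            (fun b => hΦ _ (by rw [List.length_cons]; omega))
        · simp only [dif_neg h]
          exact QD.leaf (fun y y' => rfl))
    have h2 : (fun y => if h : (run y l).length < g then Φ (G (run y l) y :: run y l) y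
        else false) = (fun y => Φ (run y (G :: l)) y) := by
      funext y
      rw [dif_pos (by rw [run_length]; omega)]
      rfl
    rw [h2] at h1
    have h3 : D + D0 + l.length * D = D0 + (G :: l).length * D := by
      rw [List.length_cons]
      ring
    rw [h3] at h1
    exact h1

/-- value of a gate when its linear form has the value `x` -/
def gateW {m N : ℕ} (z : Fin N → Bool) (u : List Bool) (x : ZMod m) : Gate m N → Bool
  | .fml f => f.eval z u
  | .md _ e t => t (x + ∑ i ∈ Finset.range u.length, if u.getD i false = true then e i else 0)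

/-- coefficients of the linear form of a gate -/
def coef {m N : ℕ} : Gate m N → Fin N → ZMod m
  | .fml _ => fun _ => 0
  | .md c _ _ => c

theorem gateW_eq {m N : ℕ} (z : Fin N → Bool) (u : List Bool) (γ : Gate m N) :
    gateW z u (∑ v, if z v = true then coef γ v else 0) γ = γ.eval z u := by
  cases γ with
  | fml f => rfl
  | md c e t => rfl

/-- the evaluations of the gates when the linear forms have the values `w` -/
def evals {m N : ℕ} {Y : Type} (Z : Y → Fin N → Bool) (w : ℕ → ZMod m) :
    ℕ → List (Gate m N) → List (List Bool → Y → Bool)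
  | _, [] => []
  | o, γ :: l => (fun u y => gateW (Z y) u (w o) γ) :: evals Z w (o + 1) l

theorem evals_length {m N : ℕ} {Y : Type} (Z : Y → Fin N → Bool) (w : ℕ → ZMod m) (o : ℕ)
    (l : List (Gate m N)) : (evals Z w o l).length = l.length := by
  induction l generalizing o with
  | nil => rfl
  | cons γ l ih => simp [evals, ih]

theorem mem_evals {m N : ℕ} {Y : Type} (Z : Y → Fin N → Bool) (w : ℕ → ZMod m) (o : ℕ)
    (l : List (Gate m N)) (G : List Bool → Y → Bool) (hG : G ∈ evals Z w o l) :
    ∃ γ ∈ l, ∃ o', G = fun u y => gateW (Z y) u (w o') γ := by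
  induction l generalizing o with
  | nil => simp [evals] at hG
  | cons γ l ih =>
    simp only [evals, List.mem_cons] at hG
    rcases hG with rfl | hG
    · exact ⟨γ, List.mem_cons_self, o, rfl⟩
    · obtain ⟨γ', h1, h2⟩ := ih (o + 1) hG
      exact ⟨γ', List.mem_cons_of_mem _ h1, h2⟩

theorem run_evals {m N : ℕ} {Y : Type} (Z : Y → Fin N → Bool) (w : ℕ → ZMod m) (o : ℕ)
    (l : List (Gate m N)) (y : Y)
    (h : ∀ (i : ℕ) (hi : i < l.length),
      (∑ v, if Z y v = true then coef (l[i]) v else 0) = w (o + i)) :
    run y (evals Z w o l) = values (Z y) l := by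
  induction l generalizing o with
  | nil => rfl
  | cons γ l ih =>
    have h1 := ih (o + 1) (fun i hi => by
      have := h (i + 1) (by rw [List.length_cons]; omega)
      rw [List.getElem_cons_succ] at this
      rw [this]
      congr 1
      omega)
    have h2 := h 0 (by rw [List.length_cons]; omega)
    rw [List.getElem_cons_zero, Nat.add_zero] at h2
    simp only [evals, run, values, h1]
    rw [← h2, gateW_eq]

/-- the values of `U`, padded -/
def pad {g : ℕ} (U : Fin g → Bool) (i : ℕ) : Bool := if h : i < g then U ⟨i, h⟩ else false

theorem pad_getD {g : ℕ} (u : List Bool) (hu : u.length ≤ g) :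
    pad (fun i : Fin g => u.getD i false) = fun i => u.getD i false := by
  funext i
  unfold pad
  by_cases hi : i < g
  · rw [dif_pos hi]
  · rw [dif_neg hi, List.getD_eq_default]
    omega

/-- the formula of a gate, for given values of the earlier gates -/
noncomputable def fmla {A : Type} {m N g : ℕ} (e : A ↪ Fin N) (l : List (Gate m N)) (i : ℕ)
    (U : Fin g → Bool) : T A ⊕ Bool :=
  match l[i]? with
  | some (.fml f) => conv e (pad U) true f
  | _ => .inr false

/-- For every modulus `m ≥ 2`, prime or composite, and every `ε > 0` there is `δ > 0` such that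
for all large `N` there is an unsatisfiable CNF with `N` variables, at most `N ^ (24 m + 37)`
clauses of width `O(m log N)` all of whose refutations have at least `exp (N ^ δ)` lines, provided
that every line is a circuit with at most `N ^ δ` gates, each of which is a formula with at most
`N ^ (2 - ε)` occurrences of variables or a gate of unbounded fan-in counting modulo `m`, and every
inference has at most `N ^ δ` premises. -/
theorem result (m : ℕ) (hm : 2 ≤ m) (ε : ℝ) (hε : 0 < ε) : ∃ (δ : ℝ) (N0 : ℕ), 0 < δ ∧ ∀ N ≥ N0,
    ∃ F : Finset (Clause N), F.card ≤ N ^ (24 * m + 37) ∧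
      (∀ cl ∈ F, cl.card ≤ (8 * m + 12) * (2 * Nat.log 2 N + 3)) ∧
      (∀ z : Fin N → Bool, ∃ cl ∈ F, ¬ cl.Holds z) ∧
      ∀ a g s S : ℕ, (a : ℝ) ≤ (N : ℝ) ^ δ → (g : ℝ) ≤ (N : ℝ) ^ δ →
        (s : ℝ) ≤ (N : ℝ) ^ (2 - ε) →
        Nonempty (Refutation F m a g s S) → Real.exp ((N : ℝ) ^ δ) ≤ S := by
  classical
  -- exponents
  obtain ⟨x, hx⟩ : ∃ x, x = min ε (1 / 2) / 64 := ⟨_, rfl⟩
  have hmin : 0 < min ε (1 / 2) := lt_min hε (by norm_num)
  have hx0 : 0 < x := by rw [hx]; positivity
  have hx1 : 64 * x ≤ 1 / 2 := by
    rw [hx]
    have := min_le_right ε (1 / 2)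
    linarith
  have hxε : 64 * x ≤ ε := by
    rw [hx]
    have := min_le_left ε (1 / 2)
    linarith
  obtain ⟨δ, hδ⟩ : ∃ δ, δ = x / 2 := ⟨_, rfl⟩
  have hδ0 : 0 < δ := by rw [hδ]; positivity
  have hδ1 : 2 * δ = x := by rw [hδ]; ring
  have hco : Nat.Coprime m (m + 1) := by simp
  obtain ⟨C, hC⟩ := core3Xc game (M6c.proof_M6c (M3.proof_M3 (M2.proof_M2 M1.proof_M1))
    M4.proof_M4) dtree m (m + 1) (2 * m + 3) hm (by omega) hco (by omega)
  obtain ⟨N0, hnum⟩ := num (2 * m + 3) C x (by omega) hx0 hx1
  refine ⟨δ, max (max N0 1) ⌈(2 : ℝ) ^ (1 / δ)⌉₊, hδ0, fun N hN => ?_⟩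
  have hN1 : 1 ≤ N := ((le_max_right _ _).trans (le_max_left _ _)).trans hN
  have hN1' : (1 : ℝ) ≤ N := by exact_mod_cast hN1
  have hX2 : (2 : ℝ) ≤ (N : ℝ) ^ δ := by
    have h1 : (2 : ℝ) ^ (1 / δ) ≤ N := Nat.le_of_ceil_le ((le_max_right _ _).trans hN)
    calc (2 : ℝ) = ((2 : ℝ) ^ (1 / δ)) ^ δ := by
          rw [← Real.rpow_mul (by norm_num), one_div, inv_mul_cancel₀ hδ0.ne', Real.rpow_one]
      _ ≤ (N : ℝ) ^ δ := Real.rpow_le_rpow (by positivity) h1 hδ0.le
  have hX22 : ((N : ℝ) ^ δ) ^ 2 = (N : ℝ) ^ x := by
    rw [← Real.rpow_natCast, ← Real.rpow_mul (by positivity), ← hδ1]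
    congr 1
    push_cast
    ring
  have h2X : 2 * (N : ℝ) ^ δ ≤ (N : ℝ) ^ x := by
    rw [← hX22]
    nlinarith
  obtain ⟨n, k, κ, s0, d, mm, t, hn, hk, hsum, hκ, hs0, ht, htk, hsT, hcount, hfan, hSr,
    hcard⟩ := hnum N (((le_max_left _ _).trans (le_max_left _ _)).trans hN)
  let A := Vr n (2 * m + 3) k κ
  have hA : Fintype.card A ≤ N := by
    simp only [A, Fintype.card_sum, Fintype.card_prod, Fintype.card_fin, Fintype.card_bool]
    refine le_trans (le_of_eq ?_) hsum
    ring
  obtain ⟨e⟩ : Nonempty (A ↪ Fin N) :=
    Function.Embedding.nonempty_of_card_le (by rw [Fintype.card_fin]; exact hA)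
  obtain ⟨π, h, hD1, hD2, hD3, hD4⟩ := hC (n := n) (k := k) (κ := κ) hn hk d ht htk hsT mm
    (Real.exp (-(N : ℝ) ^ (2 * x))) (Real.exp_pos _)
    (by
      refine lt_of_le_of_lt ?_ hcount
      rw [Fintype.card_fun, Fintype.card_fin, Fintype.card_option, Fintype.card_sum,
        Fintype.card_prod, Fintype.card_bool, Fintype.card_fun,
        Fintype.card_bool, Fintype.card_fin]
      have e1 : ((Fintype.card (Ix n (2 * m + 3)) : ℕ) : ℝ) = 2 * n * (2 * m + 3 : ℕ) := by
        rw [Fintype.card_prod, Fintype.card_prod, Fintype.card_fin, Fintype.card_fin,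
          Fintype.card_bool]
        push_cast
        ring
      rw [e1]
      push_cast
      apply mul_le_mul_of_nonneg_right _ (by positivity)
      apply pow_le_pow_left₀ (by positivity)
      have h1 : (Fintype.card A : ℝ) ≤ N := by exact_mod_cast hA
      have h2 : (Fintype.card (Vr n (2 * m + 3) k κ) : ℝ) ≤ N := h1
      rw [Fintype.card_sum] at h2
      push_cast at h2
      linarith)
  refine ⟨(CNF (m + 1) (2 * m + 3) π chg h).image (ren e), card_image_le.trans (hD1.trans
    (hcard.trans (le_of_eq (by congr 1; ring)))), ?_, ?_, ?_⟩
  · intro cl hcl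
    rw [mem_image] at hcl
    obtain ⟨c, hc, rfl⟩ := hcl
    refine card_image_le.trans ((hD2 c hc).trans ?_)
    rw [hκ]
    apply le_of_eq
    ring
  · intro z
    obtain ⟨c, hc, hcz⟩ := hD3 fun w => z (e w)
    exact ⟨ren e c, mem_image_of_mem _ hc, fun h => hcz ((holds_ren e c z).mp h)⟩
  · rintro a g s S ha hg hs ⟨ref⟩
    by_contra hcon
    push Not at hcon
    obtain ⟨j, hj⟩ := ref.final
    have hs' : s ≤ s0 := by
      apply hs0
      refine hs.trans ?_
      apply Real.rpow_le_rpow_of_exponent_le hN1'
      linarith
    have hpow : (N : ℝ) ^ δ ≤ (N : ℝ) ^ x :=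
      Real.rpow_le_rpow_of_exponent_le hN1' (by linarith)
    obtain ⟨z, hz⟩ := hD4 a g (g * (5 * d ^ 4)) S (Fin S × Fin g × (Fin g → Bool))
      (fun l => fmla e (ref.line l.1) l.2.1 l.2.2)
      (fun j i v => if h : i.1 < (ref.line j).length then coef ((ref.line j)[i.1]) (e v) else 0)
      (fun j z => value (up e z) (ref.line j))
      (by
        rintro ⟨j, i, U⟩
        simp only [fmla]
        rcases hl : (ref.line j)[i.1]? with _ | (f | ⟨c, e', t⟩)
        · simp [leavess]
        · refine (leavess_conv e _ _ f).trans (le_trans ?_ hs')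
          exact ref.size_le j (.fml f) (List.mem_of_getElem? hl)
        · simp [leavess])
      (by
        intro Z hZ j w
        let w' : ℕ → ZMod m := fun i => if h : i < g then w ⟨i, h⟩ else 0
        refine ⟨fun y => (run y (evals (fun y => up e (Z y)) w' 0 (ref.line j))).headD false,
          ?_, ?_⟩
        · have h1 := adp (g := g) (D := 5 * d ^ 4) (evals (fun y => up e (Z y)) w' 0 (ref.line j))
            (by rw [evals_length]; exact ref.length_le j) (by
              intro G hG u hu
              obtain ⟨γ, hγ, o', rfl⟩ := mem_evals _ _ _ _ _ hG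
              cases γ with
              | fml f =>
                obtain ⟨i, hi, hif⟩ := List.mem_iff_getElem.mp hγ
                have h2 := hZ (j, ⟨i, hi.trans_le (ref.length_le j)⟩,
                  fun i : Fin g => u.getD i false)
                have h3 : (ref.line j)[i]? = some (.fml f) := by
                  rw [List.getElem?_eq_getElem hi, hif]
                simp only [fmla, h3, pad_getD u hu] at h2
                have h4 : (fun y => evs (Z y) (conv e (fun i => u.getD i false) true f)) =
                    (fun y => gateW (up e (Z y)) u (w' o') (.fml f)) := by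
                  funext y
                  rw [evs_conv]
                  simp [gateW]
                rw [h4] at h2
                exact h2
              | md c e' t => exact QD.leaf (fun y y' => rfl))
            0 (fun u _ => u.headD false) (fun u _ => QD.leaf (fun y y' => rfl))
          refine M11.mono h1 _ ?_
          rw [evals_length, zero_add]
          exact Nat.mul_le_mul_right _ (ref.length_le j)
        · intro y hy
          have h1 := run_evals (fun y => up e (Z y)) w' 0 (ref.line j) y (by
            intro i hi
            have hig : i < g := hi.trans_le (ref.length_le j)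
            have h2 := hy ⟨i, hig⟩
            simp only [dif_pos hi] at h2
            rw [frm_up, h2, Nat.zero_add]
            simp only [w', dif_pos hig])
          simp only [value, h1])
      (hfan a g g (ha.trans hpow) (hg.trans hpow) (hg.trans hpow))
      (by
        have h1 := hSr g ((S : ℝ) * 2 ^ g) (by positivity) (hg.trans hpow) (by
          have h2 : (2 : ℝ) ^ g ≤ Real.exp ((N : ℝ) ^ δ) := by
            calc (2 : ℝ) ^ g ≤ (Real.exp 1) ^ g := by
                  apply pow_le_pow_left₀ (by norm_num)
                  have := Real.add_one_le_exp (1 : ℝ)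
                  linarith
              _ = Real.exp g := by rw [← Real.exp_nat_mul, mul_one]
              _ ≤ Real.exp ((N : ℝ) ^ δ) := Real.exp_le_exp.mpr hg
          calc (S : ℝ) * 2 ^ g < Real.exp ((N : ℝ) ^ δ) * Real.exp ((N : ℝ) ^ δ) := by
                apply mul_lt_mul hcon h2 (by positivity) (Real.exp_pos _).le
            _ = Real.exp (2 * (N : ℝ) ^ δ) := by rw [← Real.exp_add]; ring_nf
            _ ≤ Real.exp ((N : ℝ) ^ x) := Real.exp_le_exp.mpr h2X)
        rw [Fintype.card_prod, Fintype.card_prod, Fintype.card_fin, Fintype.card_fin,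
          Fintype.card_fun, Fintype.card_fin, Fintype.card_bool]
        push_cast at h1 ⊢
        refine le_trans (le_of_eq ?_) h1
        ring)
      (fun j => by
        rcases ref.sound j with ⟨c, hc, hcj⟩ | ⟨P, hP1, hP2, hP3⟩
        · left
          rw [mem_image] at hc
          obtain ⟨c', hc', rfl⟩ := hc
          refine ⟨c', hc', fun z hz => ?_⟩
          apply hcj
          rw [holds_ren]
          have : (fun w => up e z (e w)) = z := by
            funext w
            exact up_apply e z w
          rw [this]
          exact hz
        · right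
          exact ⟨P, hP1, hP2, fun z hz => hP3 _ hz⟩) j
    rw [hj] at hz
    simp at hz

end Pool.Agent.Results.MP_c04246_lc.CompositeModuli
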