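import Mathlib
import Pool.Agent.Helper600R2.CM.CoreD
import Pool.Agent.Helper600R2.CM.NumL
import Pool.Agent.Helper600R2.CM.P1
import Pool.Agent.Helper600R2.CM.P2
import Pool.Agent.Helper600R2.CM.DTr

/-!
A lifting theorem: composition with suitable gadgets turns every CNF which is hard for polynomial
calculus over `F_p` with respect to the degree into a formula which is hard for all refutations
whose lines are formulas with nested `MOD_p` gates and layers of size `N ^ (2 - ε)`.
-/

namespace Pool.Agent.Results.MP_c04246_lc.DegreeLifting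

open Finset
open Pool.Agent.Helper600R2.CM.DTr (DT)

/-- Formulas over `N` variables with gates of unbounded fan-in which count modulo `p`: the gate
`md t k c f` with the `k` inputs `f i` is true iff the sum modulo `p` of the coefficients `c i` of
its true inputs satisfies `t`.  The gate `MOD_{p,i}` is the case of all coefficients `1` and
`t = {i}`. -/
inductive Fm (p N : ℕ) : Type
  | const : Bool → Fm p N
  | var : Fin N → Fm p N
  | neg : Fm p N → Fm p N
  | and : Fm p N → Fm p N → Fm p N
  | or : Fm p N → Fm p N → Fm p N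
  | md : (ZMod p → Bool) → (k : ℕ) → (Fin k → ZMod p) → (Fin k → Fm p N) → Fm p N

/-- Truth value of a formula. -/
def Fm.eval {p N : ℕ} (z : Fin N → Bool) : Fm p N → Bool
  | .const b => b
  | .var v => z v
  | .neg f => !(f.eval z)
  | .and f g => f.eval z && g.eval z
  | .or f g => f.eval z || g.eval z
  | .md t _ c f => t (∑ i, if (f i).eval z = true then c i else 0)

/-- Number of occurrences of variables outside the counting gates. -/
def Fm.size {p N : ℕ} : Fm p N → ℕ
  | .const _ => 0
  | .var _ => 1
  | .neg f => f.size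
  | .and f g => f.size + g.size
  | .or f g => f.size + g.size
  | .md _ _ _ _ => 0

/-- The counting gates which are not inside another counting gate. -/
def Fm.tops {p N : ℕ} : Fm p N → Set (Fm p N)
  | .const _ => ∅
  | .var _ => ∅
  | .neg f => f.tops
  | .and f g => f.tops ∪ g.tops
  | .or f g => f.tops ∪ g.tops
  | .md t k c f => {.md t k c f}

/-- The inputs of the counting gates which are not inside another counting gate. -/
def Fm.inputs {p N : ℕ} : Fm p N → Set (Fm p N)
  | .const _ => ∅
  | .var _ => ∅
  | .neg f => f.inputs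
  | .and f g => f.inputs ∪ g.inputs
  | .or f g => f.inputs ∪ g.inputs
  | .md _ _ _ f => Set.range f

/-- Nesting depth of the counting gates. -/
def Fm.nest {p N : ℕ} : Fm p N → ℕ
  | .const _ => 0
  | .var _ => 0
  | .neg f => f.nest
  | .and f g => max f.nest g.nest
  | .or f g => max f.nest g.nest
  | .md _ _ _ f => 1 + Finset.univ.sup fun i => (f i).nest

/-- A clause over `n` variables: a finite set of literals; the literal `(x, s)` says that the
variable `x` has the value `s`. -/
abbrev Clause (n : ℕ) := Finset (Fin n × Bool)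

/-- The assignment `x` satisfies the clause. -/
def Clause.Holds {n : ℕ} (x : Fin n → Bool) (c : Clause n) : Prop := ∃ l ∈ c, x l.1 = l.2

/-- The monomial of the variables in `S`, as a function on `{0,1}^n` with values in `F_p`. -/
def mono (p : ℕ) {n : ℕ} (S : Finset (Fin n)) (x : Fin n → Bool) : ZMod p :=
  if ∀ i ∈ S, x i = true then 1 else 0

/-- The polynomials over `F_p` in `n` Boolean variables of degree at most `d` (functions on
`{0,1}^n`, that is, polynomials modulo `x i ^ 2 = x i`). -/
def Deg (p n d : ℕ) : Submodule (ZMod p) ((Fin n → Bool) → ZMod p) :=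
  Submodule.span (ZMod p) {f | ∃ S : Finset (Fin n), S.card ≤ d ∧ f = mono p S}

/-- The polynomial which translates a clause: `0` where the clause is true, `1` where it is
false. -/
def falsity (p : ℕ) {n : ℕ} (C : Clause n) (x : Fin n → Bool) : ZMod p :=
  if ∀ l ∈ C, x l.1 ≠ l.2 then 1 else 0

/-- The polynomials derivable in polynomial calculus over `F_p` from the translations of the
clauses in `F` in degree at most `D`: linear combinations are free, a polynomial may be multiplied
by a variable if its degree is less than `D`. -/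
inductive PC {n : ℕ} (p : ℕ) (F : Finset (Clause n)) (D : ℕ) :
    ((Fin n → Bool) → ZMod p) → Prop
  | clause {C : Clause n} : C ∈ F → PC p F D (falsity p C)
  | add {f g : (Fin n → Bool) → ZMod p} : PC p F D f → PC p F D g → PC p F D (f + g)
  | smul (c : ZMod p) {f : (Fin n → Bool) → ZMod p} : PC p F D f → PC p F D (c • f)
  | mul (i : Fin n) {f : (Fin n → Bool) → ZMod p} {d : ℕ} : PC p F D f → f ∈ Deg p n d →
      d + 1 ≤ D → PC p F D (mono p {i} * f)

/-- `G i` are Boolean functions of the `N` variables which are computed by decision trees of depth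
at most `b` over pairwise disjoint sets of variables, and which together attain all values. -/
structure IsGadget {n N : ℕ} (G : Fin n → (Fin N → Bool) → Bool) (b : ℕ) : Prop where
  trees : ∃ block : Fin n → Finset (Fin N), (∀ i j, i ≠ j → Disjoint (block i) (block j)) ∧
    ∀ i, DT (block i) b (G i)
  surjective : ∀ x : Fin n → Bool, ∃ z, ∀ i, G i z = x i

/-- A refutation of the composition `F ∘ G` of the CNF `F` with the functions `G`, whose lines are
formulas: every line is implied by the composition of a clause of `F` with `G` or by at most `a`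
earlier lines, and some line is unsatisfiable.  The finite set `all` contains the lines and, with
every formula, the inputs of its counting gates; every formula in `all` has, outside of counting
gates, at most `s` occurrences of variables and at most `g` distinct counting gates, and the
counting gates are nested to depth at most `k`. -/
structure Refutation {n N : ℕ} (F : Finset (Clause n)) (G : Fin n → (Fin N → Bool) → Bool)
    (p k a g s S : ℕ) where
  line : Fin S → Fm p N
  all : Finset (Fm p N)
  line_mem : ∀ j, line j ∈ all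
  inputs_mem : ∀ φ ∈ all, ∀ ψ ∈ φ.inputs, ψ ∈ all
  size_le : ∀ φ ∈ all, φ.size ≤ s
  tops_le : ∀ φ ∈ all, φ.tops.encard ≤ g
  nest_le : ∀ φ ∈ all, φ.nest ≤ k
  sound : ∀ j, (∃ c ∈ F, ∀ z, c.Holds (fun i => G i z) → (line j).eval z = true) ∨
    ∃ P : Finset (Fin S), P.card ≤ a ∧ (∀ i ∈ P, i < j) ∧
      ∀ z, (∀ i ∈ P, (line i).eval z = true) → (line j).eval z = true
  final : ∃ j, ∀ z, (line j).eval z = false

open H542 (T evs leavess comb evs_comb leavess_comb)
open Pool.Agent.Helper600R2 Pool.Agent.Helper600R2.CM Pool.Agent.H564R2.QF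
open Pool.Agent.Helper600R2.CM.DW

/-- partial inverse of an injection -/
noncomputable def pinv {A : Type} {N : ℕ} (e : A ↪ Fin N) (v : Fin N) : Option A := by
  classical
  exact if h : ∃ w, e w = v then some h.choose else none

theorem pinv_apply {A : Type} {N : ℕ} (e : A ↪ Fin N) (w : A) : pinv e (e w) = some w := by
  classical
  unfold pinv
  have h : ∃ w', e w' = e w := ⟨w, rfl⟩
  simp only [dif_pos h]
  exact congrArg some (e.injective h.choose_spec)

/-- extension of an assignment by `false` -/
noncomputable def up {A : Type} {N : ℕ} (e : A ↪ Fin N) (z : A → Bool) (v : Fin N) : Bool :=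
  match pinv e v with
  | some w => z w
  | none => false

theorem up_apply {A : Type} {N : ℕ} (e : A ↪ Fin N) (z : A → Bool) (w : A) :
    up e z (e w) = z w := by
  unfold up
  rw [pinv_apply]

/-- evaluation when the outer counting gates have the values `U` -/
def ev {p N : ℕ} (z : Fin N → Bool) (U : Fm p N → Bool) : Fm p N → Bool
  | .const b => b
  | .var v => z v
  | .neg f => !(ev z U f)
  | .and f g => ev z U f && ev z U g
  | .or f g => ev z U f || ev z U g
  | .md t k c f => U (.md t k c f)

theorem ev_eval {p N : ℕ} (z : Fin N → Bool) (U : Fm p N → Bool) (φ : Fm p N)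
    (h : ∀ μ ∈ φ.tops, U μ = μ.eval z) : ev z U φ = φ.eval z := by
  induction φ with
  | const b => rfl
  | var v => rfl
  | neg f ih =>
    simp only [ev, Fm.eval]
    rw [ih h]
  | and f g ihf ihg =>
    simp only [ev, Fm.eval]
    rw [ihf fun μ hμ => h μ (Or.inl hμ), ihg fun μ hμ => h μ (Or.inr hμ)]
  | or f g ihf ihg =>
    simp only [ev, Fm.eval]
    rw [ihf fun μ hμ => h μ (Or.inl hμ), ihg fun μ hμ => h μ (Or.inr hμ)]
  | md t k c f ih => exact h _ rfl

theorem tops_mem {p N : ℕ} (φ : Fm p N) : ∀ μ ∈ φ.tops, ∃ t k c f, μ = .md t k c f ∧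
    (∀ i, f i ∈ φ.inputs) ∧ (∀ i, (f i).nest + 1 ≤ φ.nest) ∧ 1 ≤ φ.nest := by
  induction φ with
  | const b => intro μ hμ; exact absurd hμ (Set.notMem_empty _)
  | var v => intro μ hμ; exact absurd hμ (Set.notMem_empty _)
  | neg f ih => exact ih
  | and f g ihf ihg =>
    intro μ hμ
    rcases hμ with hμ | hμ
    · obtain ⟨t, k, c, h, h1, h2, h3, h4⟩ := ihf μ hμ
      exact ⟨t, k, c, h, h1, fun i => Or.inl (h2 i), fun i => (h3 i).trans (le_max_left _ _),
        h4.trans (le_max_left _ _)⟩
    · obtain ⟨t, k, c, h, h1, h2, h3, h4⟩ := ihg μ hμ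
      exact ⟨t, k, c, h, h1, fun i => Or.inr (h2 i), fun i => (h3 i).trans (le_max_right _ _),
        h4.trans (le_max_right _ _)⟩
  | or f g ihf ihg =>
    intro μ hμ
    rcases hμ with hμ | hμ
    · obtain ⟨t, k, c, h, h1, h2, h3, h4⟩ := ihf μ hμ
      exact ⟨t, k, c, h, h1, fun i => Or.inl (h2 i), fun i => (h3 i).trans (le_max_left _ _),
        h4.trans (le_max_left _ _)⟩
    · obtain ⟨t, k, c, h, h1, h2, h3, h4⟩ := ihg μ hμ
      exact ⟨t, k, c, h, h1, fun i => Or.inr (h2 i), fun i => (h3 i).trans (le_max_right _ _),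
        h4.trans (le_max_right _ _)⟩
  | md t k c f ih =>
    intro μ hμ
    refine ⟨t, k, c, f, hμ, fun i => Set.mem_range_self i, fun i => ?_, ?_⟩
    · have : (f i).nest ≤ Finset.univ.sup fun i => (f i).nest :=
        Finset.le_sup (f := fun i => (f i).nest) (mem_univ i)
      simp only [Fm.nest]
      omega
    · simp only [Fm.nest]
      omega

/-- the list of the outer counting gates -/
theorem exists_list {p N : ℕ} (φ : Fm p N) (g : ℕ) (h : φ.tops.encard ≤ g) :
    ∃ l : List (Fm p N), l.length ≤ g ∧ ∀ μ, μ ∈ l ↔ μ ∈ φ.tops := by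
  classical
  have hf : φ.tops.Finite := Set.finite_of_encard_le_coe h
  refine ⟨hf.toFinset.toList, ?_, fun μ => by simp⟩
  rw [Finset.length_toList]
  rw [hf.encard_eq_coe_toFinset_card] at h
  exact_mod_cast h

/-- negation normal form over `A`, the variables outside `A` being set to `false` and the outer
counting gates to the values `U` -/
noncomputable def conv {A : Type} {p N : ℕ} (e : A ↪ Fin N) (U : Fm p N → Bool) :
    Bool → Fm p N → T A ⊕ Bool
  | s, .const b => .inr (b == s)
  | s, .var v => match pinv e v with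
    | some w => .inl (.lit w s)
    | none => .inr (false == s)
  | s, .neg f => conv e U (!s) f
  | s, .and f g => comb s (conv e U s f) (conv e U s g)
  | s, .or f g => comb (!s) (conv e U s f) (conv e U s g)
  | s, .md t k c f => .inr (U (.md t k c f) == s)

theorem evs_conv {A : Type} {p N : ℕ} (e : A ↪ Fin N) (U : Fm p N → Bool) (z : A → Bool)
    (f : Fm p N) : ∀ s : Bool, evs z (conv e U s f) = (ev (up e z) U f == s) := by
  induction f with
  | const b => intro s; rfl
  | var v =>
    intro s
    simp only [conv, ev, up]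
    cases pinv e v with
    | some w => rfl
    | none => rfl
  | neg f ih =>
    intro s
    simp only [conv, ev, ih]
    cases ev (up e z) U f <;> cases s <;> rfl
  | and f g ihf ihg =>
    intro s
    simp only [conv, ev, evs_comb, ihf, ihg]
    cases ev (up e z) U f <;> cases ev (up e z) U g <;> cases s <;> rfl
  | or f g ihf ihg =>
    intro s
    simp only [conv, ev, evs_comb, ihf, ihg]
    cases ev (up e z) U f <;> cases ev (up e z) U g <;> cases s <;> rfl
  | md t k c f ih => intro s; rfl

theorem leavess_conv {A : Type} {p N : ℕ} (e : A ↪ Fin N) (U : Fm p N → Bool) (f : Fm p N) :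
    ∀ s : Bool, leavess (conv e U s f) ≤ f.size := by
  induction f with
  | const b => intro s; simp [conv, leavess]
  | var v =>
    intro s
    simp only [conv, Fm.size]
    cases pinv e v with
    | some w => exact le_rfl
    | none => exact Nat.zero_le _
  | neg f ih => intro s; exact ih (!s)
  | and f g ihf ihg =>
    intro s
    exact (leavess_comb _ _ _).trans (add_le_add (ihf s) (ihg s))
  | or f g ihf ihg =>
    intro s
    exact (leavess_comb _ _ _).trans (add_le_add (ihf s) (ihg s))
  | md t k c f ih => intro s; exact Nat.zero_le _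

/-- adaptive composition -/
theorem adp {V K : Type} [Fintype V] [DecidableEq V] [Field K] {D1 : ℕ}
    (l : List ((V → Bool) → Bool)) (hl : ∀ f ∈ l, toK K f ∈ J (ι := V) (α := Bool) K D1) :
    ∀ (D0 : ℕ) (Φ : List Bool → (V → Bool) → Bool),
      (∀ w, toK K (Φ w) ∈ J (ι := V) (α := Bool) K D0) →
      toK K (fun y => Φ (l.map (fun f => f y)) y) ∈
        J (ι := V) (α := Bool) K (D0 + l.length * D1) := by
  induction l with
  | nil =>
    intro D0 Φ hΦ
    simpa using hΦ []
  | cons f fs ih =>
    intro D0 Φ hΦ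
    have h1 := ih (fun g hg => hl g (List.mem_cons_of_mem _ hg)) (D0 + D1)
      (fun w y => Φ (f y :: w) y) (by
        intro w
        have h2 : toK K (fun y => Φ (f y :: w) y) =
            toK K f * toK K (Φ (true :: w)) + (1 - toK K f) * toK K (Φ (false :: w)) := by
          funext y
          simp only [Pi.add_apply, Pi.mul_apply, Pi.sub_apply, Pi.one_apply, toK]
          by_cases hy : f y = true
          · simp [hy]
          · rw [Bool.not_eq_true] at hy
            simp [hy]
        rw [h2]
        have h3 : toK K f ∈ J (ι := V) (α := Bool) K D1 := hl f (List.mem_cons_self)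
        rw [add_comm D0 D1]
        exact Submodule.add_mem _ (J_mul h3 (hΦ _))
          (J_mul (Submodule.sub_mem _ (J_one _) h3) (hΦ _)))
    have h4 : D0 + D1 + fs.length * D1 = D0 + (f :: fs).length * D1 := by
      rw [List.length_cons]
      ring
    rw [h4] at h1
    simpa using h1

/-- degree of a counting gate -/
theorem deg_md {V K : Type} [Fintype V] [DecidableEq V] {p : ℕ} [Fact p.Prime] [Field K]
    [Algebra (ZMod p) K] (X : ℕ) (t : ZMod p → Bool) (k : ℕ) (c : Fin k → ZMod p)
    (f : Fin k → (V → Bool) → Bool) (hf : ∀ i, toK K (f i) ∈ J (ι := V) (α := Bool) K X) :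
    toK K (fun y => t (∑ i, if f i y = true then c i else 0)) ∈
      J (ι := V) (α := Bool) K ((p - 1) * X) := by
  have h := P2.proof_P2 V p K 0 1 X (fun l => l.elim0)
    (fun _ y => ∑ i, if f i y = true then c i else 0) (fun l => l.elim0) (fun _ => by
      have h3 : (fun y => algebraMap (ZMod p) K (∑ i, if f i y = true then c i else 0)) =
          ∑ i, algebraMap (ZMod p) K (c i) • toK K (f i) := by
        funext y
        rw [map_sum, Finset.sum_apply]
        refine Finset.sum_congr rfl (fun i _ => ?_)
        by_cases hi : f i y = true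
        · simp [toK, hi]
        · simp [toK, hi]
      rw [h3]
      exact Submodule.sum_mem _ (fun i _ => Submodule.smul_mem _ _ (hf i)))
    (fun _ u => t (u 0))
  simpa using h

/-- the values of `U`, padded -/
def pad {g : ℕ} (U : Fin g → Bool) (i : ℕ) : Bool := if h : i < g then U ⟨i, h⟩ else false

open Classical in
/-- the values of the gates in the list `l` -/
noncomputable def tab {p N g : ℕ} (l : List (Fm p N)) (U : Fin g → Bool) (μ : Fm p N) : Bool :=
  pad U (l.idxOf μ)

theorem tab_map {p N g : ℕ} (l : List (Fm p N)) (hl : l.length ≤ g) (z : Fin N → Bool)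
    (μ : Fm p N) (hμ : μ ∈ l) :
    tab l (fun i : Fin g => (l.map (fun μ => μ.eval z)).getD i false) μ = μ.eval z := by
  classical
  have h1 : l.idxOf μ < l.length := List.idxOf_lt_length_iff.mpr hμ
  unfold tab pad
  rw [dif_pos (h1.trans_le hl)]
  show (l.map (fun μ => μ.eval z)).getD (l.idxOf μ) false = μ.eval z
  rw [List.getD_eq_getElem _ _ (by rw [List.length_map]; exact h1), List.getElem_map,
    List.getElem_idxOf]

/-- the degree of all formulas -/
theorem deg_all {V K A : Type} [Fintype V] [DecidableEq V] {p N : ℕ} [Fact p.Prime] [Field K]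
    [Algebra (ZMod p) K] (e : A ↪ Fin N) (g d : ℕ) (all : Finset (Fm p N))
    (hin : ∀ φ ∈ all, ∀ ψ ∈ φ.inputs, ψ ∈ all) (tl : Fm p N → List (Fm p N))
    (htop : ∀ φ ∈ all, (tl φ).length ≤ g ∧ ∀ μ, μ ∈ tl φ ↔ μ ∈ φ.tops)
    (Z : (V → Bool) → (A → Bool))
    (hb : ∀ φ ∈ all, ∀ U : Fin g → Bool,
      toK K (fun y => evs (Z y) (conv e (tab (tl φ) U) true φ)) ∈ J (ι := V) (α := Bool) K d)
    (n : ℕ) : ∀ φ ∈ all, φ.nest ≤ n →
      toK K (fun y => φ.eval (up e (Z y))) ∈
        J (ι := V) (α := Bool) K ((1 + g * (p - 1)) ^ n * d) := by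
  -- the value of the formula in terms of the values of its gates
  have key : ∀ φ ∈ all, ∀ y, evs (Z y) (conv e (tab (tl φ) (fun i : Fin g =>
      (((tl φ).map (fun μ y => μ.eval (up e (Z y)))).map (fun f => f y)).getD i false)) true φ) =
        φ.eval (up e (Z y)) := by
    intro φ hφ y
    rw [evs_conv, ev_eval]
    · simp
    · intro μ hμ
      rw [List.map_map]
      exact tab_map (tl φ) (htop φ hφ).1 (up e (Z y)) μ (((htop φ hφ).2 μ).mpr hμ)
  induction n with
  | zero =>
    intro φ hφ hn
    have h0 : tl φ = [] := by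
      rw [List.eq_nil_iff_forall_not_mem]
      intro μ hμ
      obtain ⟨_, _, _, _, _, _, _, h⟩ := tops_mem φ μ (((htop φ hφ).2 μ).mp hμ)
      omega
    have h1 := hb φ hφ (fun _ => false)
    have h2 : (fun y => φ.eval (up e (Z y))) =
        (fun y => evs (Z y) (conv e (tab (tl φ) (fun _ : Fin g => false)) true φ)) := by
      funext y
      rw [← key φ hφ y, h0]
      rfl
    rw [h2]
    simpa using h1
  | succ n ih =>
    intro φ hφ hn
    have h1 := adp (V := V) (K := K) (D1 := (p - 1) * ((1 + g * (p - 1)) ^ n * d))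
      ((tl φ).map (fun μ y => μ.eval (up e (Z y)))) (by
        intro f hf
        rw [List.mem_map] at hf
        obtain ⟨μ, hμ, rfl⟩ := hf
        obtain ⟨t, k, c, f, rfl, h2, h3, _⟩ := tops_mem φ μ (((htop φ hφ).2 μ).mp hμ)
        exact deg_md (V := V) (K := K) _ t k c (fun i y => (f i).eval (up e (Z y)))
          (fun i => ih (f i) (hin φ hφ _ (h2 i)) (by have := h3 i; omega)))
      d (fun w y => evs (Z y) (conv e (tab (tl φ) (fun i : Fin g => w.getD i false)) true φ))
      (fun w => hb φ hφ _)
    have h2 : (fun y => evs (Z y) (conv e (tab (tl φ) (fun i : Fin g =>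
        (((tl φ).map (fun μ y => μ.eval (up e (Z y)))).map (fun f => f y)).getD i false))
          true φ)) = (fun y => φ.eval (up e (Z y))) := by
      funext y
      exact key φ hφ y
    rw [h2] at h1
    refine J_mono ?_ h1
    rw [List.length_map]
    have h5 := (htop φ hφ).1
    have h6 : 1 ≤ (1 + g * (p - 1)) ^ n := Nat.one_le_pow _ _ (by omega)
    calc d + (tl φ).length * ((p - 1) * ((1 + g * (p - 1)) ^ n * d))
        ≤ (1 + g * (p - 1)) ^ n * d + g * ((p - 1) * ((1 + g * (p - 1)) ^ n * d)) :=
          add_le_add (Nat.le_mul_of_pos_left _ h6) (Nat.mul_le_mul_right _ h5)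
      _ = (1 + g * (p - 1)) ^ (n + 1) * d := by ring

theorem mono_mul {p n : ℕ} (S T : Finset (Fin n)) : mono p S * mono p T = mono p (S ∪ T) := by
  funext x
  simp only [mono, Pi.mul_apply]
  by_cases h1 : ∀ i ∈ S, x i = true
  · by_cases h2 : ∀ i ∈ T, x i = true
    · rw [if_pos h1, if_pos h2, if_pos, mul_one]
      intro i hi
      rcases mem_union.mp hi with h | h
      · exact h1 i h
      · exact h2 i h
    · rw [if_neg h2, mul_zero, if_neg (fun h : ∀ i ∈ S ∪ T, x i = true =>
        h2 fun i hi => h i (mem_union_right _ hi))]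
  · rw [if_neg h1, zero_mul, if_neg (fun h : ∀ i ∈ S ∪ T, x i = true =>
      h1 fun i hi => h i (mem_union_left _ hi))]

theorem mono_mem {p n d : ℕ} (S : Finset (Fin n)) (h : S.card ≤ d) : mono p S ∈ Deg p n d :=
  Submodule.subset_span ⟨S, h, rfl⟩

theorem one_mem {p n d : ℕ} : (1 : (Fin n → Bool) → ZMod p) ∈ Deg p n d := by
  have h : (1 : (Fin n → Bool) → ZMod p) = mono p ∅ := by
    funext x
    simp [mono]
  rw [h]
  exact mono_mem _ (by simp)

theorem Deg_mono {p n d d' : ℕ} (h : d ≤ d') : Deg p n d ≤ Deg p n d' := by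
  unfold Deg
  apply Submodule.span_mono
  rintro _ ⟨S, hS, rfl⟩
  exact ⟨S, hS.trans h, rfl⟩

theorem Deg_mul {p n a b : ℕ} {f g : (Fin n → Bool) → ZMod p} (hf : f ∈ Deg p n a)
    (hg : g ∈ Deg p n b) : f * g ∈ Deg p n (a + b) := by
  have h1 : f * g ∈ (Deg p n a) * (Deg p n b) := Submodule.mul_mem_mul hf hg
  have h2 : (Deg p n a) * (Deg p n b) ≤ Deg p n (a + b) := by
    unfold Deg
    rw [Submodule.span_mul_span]
    apply Submodule.span_mono
    rintro _ ⟨_, ⟨S, hS, rfl⟩, _, ⟨T, hT, rfl⟩, rfl⟩
    exact ⟨S ∪ T, (card_union_le _ _).trans (by omega), mono_mul S T⟩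
  exact h2 h1

theorem Deg_prod {p n d : ℕ} {κ : Type} (s : Finset κ) (f : κ → (Fin n → Bool) → ZMod p)
    (h : ∀ i ∈ s, f i ∈ Deg p n d) : (∏ i ∈ s, f i) ∈ Deg p n (s.card * d) := by
  classical
  induction s using Finset.induction_on with
  | empty => simpa using one_mem
  | insert a s ha ih =>
    rw [Finset.prod_insert ha, card_insert_of_notMem ha, add_mul, one_mul, add_comm]
    exact Deg_mul (h a (mem_insert_self _ _)) (ih (fun i hi => h i (mem_insert_of_mem hi)))

/-- degree in the sense of juntas -/
theorem J_le_Deg {p n w : ℕ} [Fact p.Prime] :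
    J (ι := Fin n) (α := Bool) (ZMod p) w ≤ Deg p n w := by
  classical
  unfold J
  rw [Submodule.span_le]
  rintro g ⟨B, hB, hg⟩
  have h1 : g = ∑ T ∈ B.powerset, g (fun i => decide (i ∈ T)) •
      ∏ i ∈ B, (if i ∈ T then mono p {i} else 1 - mono p {i}) := by
    funext x
    rw [Finset.sum_apply, Finset.sum_eq_single (B.filter fun i => x i = true)]
    · rw [Pi.smul_apply, Finset.prod_apply, Finset.prod_eq_one, smul_eq_mul, mul_one]
      · apply hg
        intro i hi
        have hi' : i ∈ B := hi
        cases hx : x i <;> simp [hi', hx]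
      · intro i hi
        cases hx : x i <;> simp [hi, hx, mono]
    · intro T hT hne
      rw [mem_powerset] at hT
      rw [Pi.smul_apply, Finset.prod_apply]
      obtain ⟨i, hi, hii⟩ : ∃ i ∈ B, ¬ (i ∈ T ↔ x i = true) := by
        by_contra hcon
        push Not at hcon
        apply hne
        ext i
        rw [mem_filter]
        constructor
        · intro h; exact ⟨hT h, (hcon i (hT h)).mp h⟩
        · rintro ⟨h, h'⟩; exact (hcon i h).mpr h'
      rw [Finset.prod_eq_zero hi, smul_zero]
      by_cases hiT : i ∈ T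
      · have hx : x i = false := by
          cases h : x i
          · rfl
          · exact absurd (by simp [hiT, h]) hii
        simp [hiT, hx, mono]
      · have hx : x i = true := by
          cases h : x i
          · exact absurd (by simp [hiT, h]) hii
          · rfl
        simp [hiT, hx, mono]
    · intro h
      exact absurd (mem_powerset.mpr (filter_subset _ _)) h
  rw [h1]
  refine Submodule.sum_mem _ (fun T _ => Submodule.smul_mem _ _ ?_)
  have h2 := Deg_prod (p := p) (n := n) (d := 1) B
    (fun i => if i ∈ T then mono p {i} else 1 - mono p {i}) (by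
      intro i _
      have h3 : mono p {i} ∈ Deg p n 1 := mono_mem _ (by simp)
      by_cases hi : i ∈ T
      · simp only [if_pos hi]
        exact h3
      · simp only [if_neg hi]
        exact Submodule.sub_mem _ one_mem h3)
  rw [mul_one] at h2
  exact Deg_mono hB h2

theorem falsity_mem {p n w : ℕ} [Fact p.Prime] (C : Clause n) (h : C.card ≤ w) :
    falsity p C ∈ Deg p n w := by
  apply J_le_Deg
  refine junta_mem (C.image Prod.fst) (card_image_le.trans h) ?_
  intro x y hxy
  unfold falsity
  have h1 : (∀ l ∈ C, x l.1 ≠ l.2) ↔ (∀ l ∈ C, y l.1 ≠ l.2) := by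
    constructor
    · intro h l hl
      rw [← hxy l.1 (mem_coe.mpr (mem_image_of_mem _ hl))]
      exact h l hl
    · intro h l hl
      rw [hxy l.1 (mem_coe.mpr (mem_image_of_mem _ hl))]
      exact h l hl
  simp only [h1]

theorem PC_mono_mul {n p : ℕ} {F : Finset (Clause n)} {D d : ℕ} {f : (Fin n → Bool) → ZMod p}
    (hf : PC p F D f) (hd : f ∈ Deg p n d) (S : Finset (Fin n)) :
    d + S.card ≤ D → PC p F D (mono p S * f) ∧ mono p S * f ∈ Deg p n (d + S.card) := by
  induction S using Finset.induction_on with
  | empty =>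
    intro _
    have h : mono p (∅ : Finset (Fin n)) * f = f := by
      funext x
      simp [mono]
    rw [h]
    exact ⟨hf, by simpa using hd⟩
  | insert i S hi ih =>
    intro hD
    rw [card_insert_of_notMem hi] at hD
    obtain ⟨h1, h2⟩ := ih (by omega)
    have h3 : mono p (insert i S) * f = mono p {i} * (mono p S * f) := by
      rw [← mul_assoc, mono_mul]
      rfl
    rw [h3, card_insert_of_notMem hi]
    refine ⟨PC.mul i h1 h2 (by omega), ?_⟩
    have h4 := Deg_mul (mono_mem (p := p) (d := 1) ({i} : Finset (Fin n)) (by simp)) h2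
    exact Deg_mono (by omega) h4

theorem PC_mul {n p : ℕ} {F : Finset (Clause n)} {D d e : ℕ} {f u : (Fin n → Bool) → ZMod p}
    (hf : PC p F D f) (hd : f ∈ Deg p n d) (hu : u ∈ Deg p n e) (hD : d + e ≤ D) :
    PC p F D (u * f) := by
  unfold Deg at hu
  induction hu using Submodule.span_induction with
  | mem u hu =>
    obtain ⟨S, hS, rfl⟩ := hu
    exact (PC_mono_mul hf hd S (by omega)).1
  | zero =>
    have h : (0 : (Fin n → Bool) → ZMod p) * f = (0 : ZMod p) • f := by simp
    rw [h]
    exact PC.smul 0 hf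
  | add u v _ _ h1 h2 =>
    rw [add_mul]
    exact PC.add h1 h2
  | smul c u _ h1 =>
    rw [smul_mul_assoc]
    exact PC.smul c h1

/-- refutations by functions of low degree -/
theorem no_semantic {n p : ℕ} [Fact p.Prime] (F : Finset (Clause n)) (w W a D0 S : ℕ)
    (hw : ∀ C ∈ F, C.card ≤ w) (hW : (a + 1) * D0 + w ≤ W) (hF : ¬ PC p F W 1)
    (f : Fin S → (Fin n → Bool) → Bool) (hdeg : ∀ j, toK (ZMod p) (f j) ∈ Deg p n D0)
    (hs : ∀ j, (∃ C ∈ F, ∀ x, C.Holds x → f j x = true) ∨
      ∃ P : Finset (Fin S), P.card ≤ a ∧ (∀ i ∈ P, i < j) ∧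
        ∀ x, (∀ i ∈ P, f i x = true) → f j x = true) (j : Fin S) : ∃ x, f j x = true := by
  classical
  have hd1 : ∀ j, 1 - toK (ZMod p) (f j) ∈ Deg p n D0 := fun j =>
    Submodule.sub_mem _ one_mem (hdeg j)
  rcases F.eq_empty_or_nonempty with hF0 | ⟨C0, hC0⟩
  · -- all lines are valid
    have key : ∀ m : ℕ, ∀ j : Fin S, j.1 = m → ∀ x, f j x = true := by
      intro m
      induction m using Nat.strong_induction_on with
      | _ m ih =>
        intro j hj x
        rcases hs j with ⟨C, hC, _⟩ | ⟨P, hP1, hP2, hP3⟩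
        · rw [hF0] at hC
          exact absurd hC (notMem_empty _)
        · exact hP3 x (fun i hi => ih i.1 (by rw [← hj]; exact hP2 i hi) i rfl x)
    exact ⟨fun _ => false, key _ j rfl _⟩
  have hzero : PC p F W 0 := by
    have h8 : (0 : (Fin n → Bool) → ZMod p) = (0 : ZMod p) • falsity p C0 := by simp
    rw [h8]
    exact PC.smul 0 (PC.clause hC0)
  have key : ∀ m : ℕ, ∀ j : Fin S, j.1 = m → PC p F W (1 - toK (ZMod p) (f j)) := by
    intro m
    induction m using Nat.strong_induction_on with
    | _ m ih =>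
      intro j hj
      rcases hs j with ⟨C, hC, hCj⟩ | ⟨P, hP1, hP2, hP3⟩
      · have h1 : 1 - toK (ZMod p) (f j) = (1 - toK (ZMod p) (f j)) * falsity p C := by
          funext x
          simp only [Pi.sub_apply, Pi.one_apply, Pi.mul_apply, toK, falsity]
          by_cases h : ∀ l ∈ C, x l.1 ≠ l.2
          · rw [if_pos h, mul_one]
          · have h2 : C.Holds x := by
              push Not at h
              exact h
            rw [hCj x h2]
            simp
        rw [h1]
        exact PC_mul (PC.clause hC) (falsity_mem C (hw C hC)) (hd1 j) (by nlinarith)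
      · -- the product of the premises
        have h1 : ∀ Q ⊆ P, PC p F W (1 - ∏ i ∈ Q, toK (ZMod p) (f i)) := by
          intro Q
          induction Q using Finset.induction_on with
          | empty =>
            intro _
            simpa using hzero
          | insert i Q hi ihQ =>
            intro hQ
            have h2 : PC p F W (1 - toK (ZMod p) (f i)) :=
              ih i.1 (by rw [← hj]; exact hP2 i (hQ (mem_insert_self _ _))) i rfl
            have h3 : (∏ i ∈ Q, toK (ZMod p) (f i)) ∈ Deg p n (Q.card * D0) :=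
              Deg_prod Q _ (fun i _ => hdeg i)
            have hcard : Q.card + 1 ≤ a := by
              have := card_le_card hQ
              rw [card_insert_of_notMem hi] at this
              omega
            have h4 : PC p F W ((∏ i ∈ Q, toK (ZMod p) (f i)) * (1 - toK (ZMod p) (f i))) :=
              PC_mul h2 (hd1 i) h3 (by nlinarith)
            have h6 := ihQ ((subset_insert _ _).trans hQ)
            have h7 : 1 - ∏ i ∈ insert i Q, toK (ZMod p) (f i) =
                (1 - ∏ i ∈ Q, toK (ZMod p) (f i)) +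
                  (∏ i ∈ Q, toK (ZMod p) (f i)) * (1 - toK (ZMod p) (f i)) := by
              rw [prod_insert hi]
              ring
            rw [h7]
            exact PC.add h6 h4
        have h6 := h1 P Subset.rfl
        have h7 : 1 - toK (ZMod p) (f j) =
            (1 - toK (ZMod p) (f j)) * (1 - ∏ i ∈ P, toK (ZMod p) (f i)) := by
          funext x
          simp only [Pi.sub_apply, Pi.one_apply, Pi.mul_apply, Finset.prod_apply, toK]
          by_cases h : ∀ i ∈ P, f i x = true
          · rw [hP3 x h]
            simp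
          · push Not at h
            obtain ⟨i, hi, hix⟩ := h
            rw [Finset.prod_eq_zero hi (by simp [hix])]
            ring
        rw [h7]
        refine PC_mul h6 (d := P.card * D0) ?_ (hd1 j) ?_
        · exact Submodule.sub_mem _ one_mem (Deg_prod P _ (fun i _ => hdeg i))
        · nlinarith
  by_contra hcon
  push Not at hcon
  apply hF
  have h1 := key j.1 j rfl
  have h2 : 1 - toK (ZMod p) (f j) = 1 := by
    funext x
    have h5 : f j x = false := by simpa using hcon x
    simp only [Pi.sub_apply, Pi.one_apply, toK]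
    rw [h5]
    simp
  rwa [h2] at h1

/-- For every prime `p` and all `γ, ε > 0` there are `δ, η > 0` such that for all large `N` there
are an `n` with `N ^ η ≤ n + 1` and gadgets `G` for `n` variables over `N` variables, decision trees of
depth `O(log N)`, such that for every CNF `F` with `n` variables whose clauses have at most `w`
literals and which has no polynomial calculus refutation over `F_p` of degree `W ≥ n ^ γ + w`, every
refutation of the composition `F ∘ G` by semantic inferences with at most `N ^ δ` premises contains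
at least `exp (N ^ δ)` distinct formulas, provided that the lines are formulas with `¬`, `∧`, `∨`
and counting gates modulo `p` of unbounded fan-in which are nested to depth at most `k`, such that
the lines and all inputs of counting gates have outside of counting gates at most `N ^ (2 - ε)`
occurrences of variables and at most `g` distinct counting gates, where `g ≤ N ^ δ` and
`(p (g + 1)) ^ k ≤ N ^ δ`. -/
theorem result (p : ℕ) (hp : p.Prime) (γ ε : ℝ) (hγ : 0 < γ) (hε : 0 < ε) :
    ∃ (δ η : ℝ) (N0 : ℕ), 0 < δ ∧ 0 < η ∧ ∀ N ≥ N0,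
      ∃ (n : ℕ) (G : Fin n → (Fin N → Bool) → Bool), (N : ℝ) ^ η ≤ n + 1 ∧
        IsGadget G (2 * Nat.log 2 N + 3) ∧
        ∀ (F : Finset (Clause n)) (w W : ℕ), (∀ C ∈ F, C.card ≤ w) →
          (n : ℝ) ^ γ + w ≤ W → ¬ PC p F W 1 →
          ∀ k a g s S : ℕ, (a : ℝ) ≤ (N : ℝ) ^ δ → (g : ℝ) ≤ (N : ℝ) ^ δ →
            (((p * (g + 1)) ^ k : ℕ) : ℝ) ≤ (N : ℝ) ^ δ → (s : ℝ) ≤ (N : ℝ) ^ (2 - ε) →
            ∀ ref : Refutation F G p k a g s S, Real.exp ((N : ℝ) ^ δ) ≤ ref.all.card := by
  classical
  have : Fact p.Prime := ⟨hp⟩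
  -- exponents
  obtain ⟨L, hL⟩ : ∃ L, L = max 24 (18 / γ) := ⟨_, rfl⟩
  have hL24 : (24 : ℝ) ≤ L := by rw [hL]; exact le_max_left _ _
  have hLγ : 18 ≤ L * γ := by
    have h1 : 18 / γ ≤ L := by rw [hL]; exact le_max_right _ _
    rwa [div_le_iff₀ hγ] at h1
  obtain ⟨x, hx⟩ : ∃ x, x = min ε (1 / 2) / (2 * L + 16) := ⟨_, rfl⟩
  have hmin : 0 < min ε (1 / 2) := lt_min hε (by norm_num)
  have hL16 : 0 < 2 * L + 16 := by linarith
  have hx0 : 0 < x := by rw [hx]; positivity
  have hxe : (2 * L + 16) * x = min ε (1 / 2) := by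
    rw [hx]
    field_simp
  have hx1 : (2 * L + 16) * x ≤ 1 / 2 := by
    rw [hxe]
    exact min_le_right ε (1 / 2)
  have hxε : (2 * L + 16) * x ≤ ε := by
    rw [hxe]
    exact min_le_left ε (1 / 2)
  obtain ⟨δ, hδ⟩ : ∃ δ, δ = x / 2 := ⟨_, rfl⟩
  have hδ0 : 0 < δ := by rw [hδ]; positivity
  have hδ1 : 2 * δ = x := by rw [hδ]; ring
  obtain ⟨N0, hnum⟩ := NumL.numL 1 1 L γ x (by omega) hL24 hγ hLγ hx0 hx1
  refine ⟨δ, L * x, max (max N0 1) ⌈(2 : ℝ) ^ (1 / δ)⌉₊, hδ0, by positivity, fun N hN => ?_⟩
  have hN1 : 1 ≤ N := ((le_max_right _ _).trans (le_max_left _ _)).trans hN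
  have hN1' : (1 : ℝ) ≤ N := by exact_mod_cast hN1
  have hX2 : (2 : ℝ) ≤ (N : ℝ) ^ δ := by
    have h1 : (2 : ℝ) ^ (1 / δ) ≤ N := Nat.le_of_ceil_le ((le_max_right _ _).trans hN)
    calc (2 : ℝ) = ((2 : ℝ) ^ (1 / δ)) ^ δ := by
          rw [← Real.rpow_mul (by norm_num), one_div, inv_mul_cancel₀ hδ0.ne', Real.rpow_one]
      _ ≤ (N : ℝ) ^ δ := Real.rpow_le_rpow (by positivity) h1 hδ0.le
  have hX22 : ((N : ℝ) ^ δ) ^ 2 = (N : ℝ) ^ x := by
    rw [← Real.rpow_natCast, ← Real.rpow_mul (by positivity), ← hδ1]
    congr 1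
    push_cast
    ring
  have h2X : 2 * (N : ℝ) ^ δ ≤ (N : ℝ) ^ x := by
    rw [← hX22]
    nlinarith
  obtain ⟨n, kk, κ, s0, d, mm, t, hn, hk, hsum, hκ, hs0, ht, htk, hsT, hcount, hfan,
    hSr⟩ := hnum N (((le_max_left _ _).trans (le_max_left _ _)).trans hN)
  let A := Vd n kk κ
  have hA : Fintype.card A ≤ N := by
    simp only [A, Fintype.card_sum, Fintype.card_prod, Fintype.card_fin]
    refine le_trans ?_ hsum
    nlinarith [Nat.zero_le (n * kk), Nat.zero_le (n * κ)]
  obtain ⟨e⟩ : Nonempty (A ↪ Fin N) :=
    Function.Embedding.nonempty_of_card_le (by rw [Fintype.card_fin]; exact hA)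
  obtain ⟨h, hD4⟩ := core3D P1.proof_P1 (ZMod p) (n := n) (k := kk) (κ := κ) hk d ht htk hsT mm
    (Real.exp (-(N : ℝ) ^ (2 * x))) (Real.exp_pos _)
    (by
      refine lt_of_le_of_lt ?_ hcount
      rw [Fintype.card_fun, Fintype.card_fin, Fintype.card_option, Fintype.card_sum,
        Fintype.card_prod, Fintype.card_bool, Fintype.card_fun,
        Fintype.card_bool, Fintype.card_fin, Fintype.card_fin]
      have e1 : (n : ℝ) ≤ 2 * n * (1 : ℕ) := by
        push_cast
        have : (0 : ℝ) ≤ n := by positivity
        linarith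
      have hX0 : (0 : ℝ) ≤ (192 - 1) * mm / 2 ^ κ := by
        apply div_nonneg _ (by positivity)
        norm_num
      push_cast at e1 ⊢
      apply mul_le_mul
      · apply pow_le_pow_left₀ (by positivity)
        have h1 : (Fintype.card A : ℝ) ≤ N := by exact_mod_cast hA
        have h2 : (Fintype.card (Vd n kk κ) : ℝ) ≤ N := h1
        rw [Fintype.card_sum] at h2
        push_cast at h2
        linarith
      · apply pow_le_pow_left₀ (by positivity)
        apply mul_le_mul_of_nonneg_left _ (by positivity)
        apply Real.exp_le_exp.mpr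
        exact mul_le_mul_of_nonneg_right e1 hX0
      · positivity
      · positivity)
  refine ⟨n, fun i z => cvd h (fun v => z (e v)) i, hn, ⟨?_, ?_⟩, ?_⟩
  · -- certificates
    refine ⟨fun i => univ.filter (fun v => ∃ a : A, e a = v ∧
      Sum.elim (fun b : Fin n × Fin kk => b.1)
        (fun b : Fin n × Fin κ => b.1) a = i), ?_, ?_⟩
    · intro i j hij
      rw [Finset.disjoint_left]
      intro v hv hv'
      rw [mem_filter] at hv hv'
      obtain ⟨_, a, ha, hai⟩ := hv
      obtain ⟨_, a', ha', haj⟩ := hv'
      have : a = a' := e.injective (ha.trans ha'.symm)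
      subst this
      exact hij (hai.symm.trans haj)
    · intro i
      have h1 := DTr.cell (κ := κ) (d := 0) (A := univ.filter (fun v => ∃ a : A, e a = v ∧
        Sum.elim (fun b : Fin n × Fin kk => b.1) (fun b : Fin n × Fin κ => b.1) a = i))
        (fun p => e (.inl (i, h i p))) (fun c => e (.inr (i, c)))
        (fun p => by rw [mem_filter]; exact ⟨mem_univ _, _, rfl, rfl⟩)
        (fun c => by rw [mem_filter]; exact ⟨mem_univ _, _, rfl, rfl⟩) _ _ (DT.const 0 true)
        (DT.const 0 false)
      have h2 : 2 * Nat.log 2 N + 3 = 0 + (κ + 1) := by omega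
      rw [h2]
      have h3 : (fun z : Fin N → Bool => if z (e (.inl (i, h i (fun c => z (e (.inr (i, c)))))))
          = true then true else false) = (fun z => cvd h (fun v => z (e v)) i) := by
        funext z
        simp only [cvd]
        cases z (e (.inl (i, h i (fun c => z (e (.inr (i, c))))))) <;> rfl
      rw [h3] at h1
      exact h1
  · -- all values
    intro y
    refine ⟨up e (Sum.elim (fun b => y b.1) (fun _ => false)), fun i => ?_⟩
    simp only [cvd, up_apply, Sum.elim_inl]
  · intro F w W hw hW hF k a g s S ha hg hgk hs ref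
    by_contra hcon
    push Not at hcon
    obtain ⟨j, hj⟩ := ref.final
    have hs' : s ≤ s0 := by
      apply hs0
      refine hs.trans ?_
      apply Real.rpow_le_rpow_of_exponent_le hN1'
      linarith
    have hpow : (N : ℝ) ^ δ ≤ (N : ℝ) ^ x :=
      Real.rpow_le_rpow_of_exponent_le hN1' (by linarith)
    have hx1' : (1 : ℝ) ≤ (N : ℝ) ^ x := Real.one_le_rpow hN1' hx0.le
    have hlist : ∀ φ : Fm p N, ∃ l : List (Fm p N), φ ∈ ref.all →
        l.length ≤ g ∧ ∀ μ, μ ∈ l ↔ μ ∈ φ.tops := by
      intro φ
      by_cases hφ : φ ∈ ref.all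
      · obtain ⟨l, hl⟩ := exists_list φ g (ref.tops_le φ hφ)
        exact ⟨l, fun _ => hl⟩
      · exact ⟨[], fun h => absurd h hφ⟩
    choose tl htl using hlist
    obtain ⟨Z, hZc, hZ⟩ := hD4 ({φ // φ ∈ ref.all} × (Fin g → Bool))
      (fun l => conv e (tab (tl l.1.1) l.2) true l.1.1)
      (fun l => (leavess_conv e _ _ _).trans ((ref.size_le _ l.1.2).trans hs'))
      (by
        have h1 := hSr 1 ((ref.all.card : ℝ) * 2 ^ g) (by positivity) (by simpa using hx1') (by
          have h2 : (2 : ℝ) ^ g ≤ Real.exp ((N : ℝ) ^ δ) := by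
            calc (2 : ℝ) ^ g ≤ (Real.exp 1) ^ g := by
                  apply pow_le_pow_left₀ (by norm_num)
                  have := Real.add_one_le_exp (1 : ℝ)
                  linarith
              _ = Real.exp g := by rw [← Real.exp_nat_mul, mul_one]
              _ ≤ Real.exp ((N : ℝ) ^ δ) := Real.exp_le_exp.mpr hg
          calc (ref.all.card : ℝ) * 2 ^ g < Real.exp ((N : ℝ) ^ δ) * Real.exp ((N : ℝ) ^ δ) := by
                apply mul_lt_mul hcon h2 (by positivity) (Real.exp_pos _).le
            _ = Real.exp (2 * (N : ℝ) ^ δ) := by rw [← Real.exp_add]; ring_nf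
            _ ≤ Real.exp ((N : ℝ) ^ x) := Real.exp_le_exp.mpr h2X)
        rw [Fintype.card_prod, Fintype.card_coe, Fintype.card_fun, Fintype.card_fin,
          Fintype.card_bool]
        push_cast at h1 ⊢
        rw [mul_one] at h1
        exact h1)
    have hdeg := fun j : Fin S => deg_all (K := ZMod p) e g d ref.all ref.inputs_mem tl htl Z
      (fun φ hφ U => hZ (⟨φ, hφ⟩, U)) k (ref.line j) (ref.line_mem j)
      (ref.nest_le _ (ref.line_mem j))
    have hf := hfan a ((p * (g + 1)) ^ k) 0 (ha.trans hpow) (hgk.trans hpow) (by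
      push_cast
      linarith)
    have hbound : (a + 1) * ((1 + g * (p - 1)) ^ k * d) + w ≤ W := by
      have hp1 : 1 + g * (p - 1) ≤ p * (g + 1) := by
        obtain ⟨p', rfl⟩ : ∃ p', p = p' + 1 := ⟨p - 1, by have := hp.one_lt; omega⟩
        rw [Nat.add_sub_cancel]
        nlinarith
      have hd : d ≤ 5 * d ^ 4 := by
        rcases Nat.eq_zero_or_pos d with h | h
        · simp [h]
        · calc d = d ^ 1 := (pow_one d).symm
            _ ≤ d ^ 4 := Nat.pow_le_pow_right h (by norm_num)
            _ ≤ 5 * d ^ 4 := by omega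
      have h1 : (a + 1) * ((1 + g * (p - 1)) ^ k * d) ≤
          1 * ((a + 1) ^ 2 * (0 + 1) ^ 2 * ((p * (g + 1)) ^ k * (5 * d ^ 4) + 1)) := by
        calc (a + 1) * ((1 + g * (p - 1)) ^ k * d)
            ≤ (a + 1) ^ 2 * ((p * (g + 1)) ^ k * (5 * d ^ 4)) := by
              apply Nat.mul_le_mul
              · nlinarith
              · exact Nat.mul_le_mul (Nat.pow_le_pow_left hp1 k) hd
          _ = 1 * ((a + 1) ^ 2 * (0 + 1) ^ 2 * ((p * (g + 1)) ^ k * (5 * d ^ 4))) := by
              ring
          _ ≤ 1 * ((a + 1) ^ 2 * (0 + 1) ^ 2 * ((p * (g + 1)) ^ k * (5 * d ^ 4) + 1)) :=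
              Nat.mul_le_mul_left _ (Nat.mul_le_mul_left _ (Nat.le_succ _))
      have h2 : (((a + 1) * ((1 + g * (p - 1)) ^ k * d) : ℕ) : ℝ) ≤
          ((1 * ((a + 1) ^ 2 * (0 + 1) ^ 2 * ((p * (g + 1)) ^ k * (5 * d ^ 4) + 1)) : ℕ) : ℝ) := by
        exact_mod_cast h1
      have h3 : (((a + 1) * ((1 + g * (p - 1)) ^ k * d) : ℕ) : ℝ) + (w : ℝ) ≤ (W : ℝ) := by
        push_cast at hf h2 ⊢
        linarith
      exact_mod_cast h3
    obtain ⟨y, hy⟩ := no_semantic F w W a ((1 + g * (p - 1)) ^ k * d) S hw hbound hF
      (fun j y => (ref.line j).eval (up e (Z y))) (fun j => J_le_Deg (hdeg j))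
      (fun j => by
        rcases ref.sound j with ⟨c, hc, hcj⟩ | ⟨P, hP1, hP2, hP3⟩
        · left
          refine ⟨c, hc, fun y hy => ?_⟩
          apply hcj
          have : (fun v => up e (Z y) (e v)) = Z y := by
            funext v
            exact up_apply e (Z y) v
          show Clause.Holds (fun i => cvd h (fun v => up e (Z y) (e v)) i) c
          rw [this]
          have h2 : (fun i => cvd h (Z y) i) = y := hZc y
          rw [h2]
          exact hy
        · right
          exact ⟨P, hP1, hP2, fun y hy => hP3 _ hy⟩) j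
    rw [hj] at hy
    simp at hy

end Pool.Agent.Results.MP_c04246_lc.DegreeLifting
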