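import Pool.Agent.Helper600R2.BlockDeg

/-!
Exponential lower bound on the number of lines of refutations whose lines are built from
linearly many unbounded fan-in gates, including gates counting modulo `p`.
-/

set_option linter.unusedSectionVars false

namespace Pool.Agent.Results.MP_c04246_lc.FewGates

open Finset Pool.Agent.Helper600R2

/-- Truth value, under the assignment `x`, of the conjunction of the literals in `T`; the literal
`(a, true)` is the variable `a`, and `(a, false)` is its negation. -/
def termVal {α : Type} (T : Finset (α × Bool)) (x : α → Bool) : Bool :=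
  decide (∀ l ∈ T, x l.1 = l.2)

/-- A clause (disjunction of the literals in `C`) holds under `x`. -/
def ClauseHolds {α : Type} (C : Finset (α × Bool)) (x : α → Bool) : Prop :=
  ∃ l ∈ C, x l.1 = l.2

/-- A line: an arbitrary Boolean function `out` of the values of `s` conjunctions `gate i` of
literals (of any width) and of `g` sums modulo `p`; the `j`-th sum is
`∑ T ∈ sup j, coef j T * T`, where `sup j` is any finite set of conjunctions of literals. -/
structure Line (p : ℕ) (α : Type) where
  s : ℕ
  gate : Fin s → Finset (α × Bool)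
  g : ℕ
  sup : Fin g → Finset (Finset (α × Bool))
  coef : Fin g → Finset (α × Bool) → ZMod p
  out : (Fin s → Bool) → (Fin g → ZMod p) → Bool

/-- Truth value of a line. -/
def Line.eval {p : ℕ} {α : Type} (L : Line p α) (x : α → Bool) : Bool :=
  L.out (fun i => termVal (L.gate i) x)
    (fun j => ∑ T ∈ L.sup j, if termVal T x = true then L.coef j T else 0)

/-- `L` is a refutation of the CNF `F`: some line is identically false, and every line is implied
by a single clause of `F` or by at most `k` earlier lines. -/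
def IsRefutation {p : ℕ} {α : Type} (F : Finset (Finset (α × Bool))) (k : ℕ) {T : ℕ}
    (L : Fin T → Line p α) : Prop :=
  (∃ i, ∀ x, (L i).eval x = false) ∧
  ∀ i, (∃ C ∈ F, ∀ x, ClauseHolds C x → (L i).eval x = true) ∨
    (∃ P : Finset (Fin T), P.card ≤ k ∧ (∀ j ∈ P, j < i) ∧
      ∀ x, (∀ j ∈ P, (L j).eval x = true) → (L i).eval x = true)

/-- The conjunctions with more than `t` literals that occur inside the mod `p` sums of the
lines. -/
noncomputable def wideTerms {p : ℕ} {α : Type} {T : ℕ} [DecidableEq α] (L : Fin T → Line p α)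
    (t : ℝ) : Finset (Finset (α × Bool)) :=
  open Classical in
  (univ.biUnion (fun i => univ.biUnion (L i).sup)).filter (fun U => t < (U.card : ℝ))

section cnf

variable {n : ℕ} (π : Equiv.Perm (Fin n)) {q : ℕ} [NeZero q] {r m : ℕ}

/-- the variables of the constraint at `v` -/
noncomputable def SV (q : ℕ) [NeZero q] {n r m : ℕ} (π : Equiv.Perm (Fin n)) (v : Fin n) :
    Finset ((Fin n × Bool) × Fin r × Fin m) :=
  (nsupp (q := q) (dd (ghd π) gtl (Pi.single v (1 : ZMod q)))) ×ˢ univ

lemma SV_card (v : Fin n) : (SV q (r := r) (m := m) π v).card ≤ 4 * (r * m) := by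
  rw [SV, card_product]
  have h2 : (nsupp (q := q) (dd (ghd π) gtl (Pi.single v (1 : ZMod q)))).card ≤ 4 :=
    graph_deg (q := q) π v 1
  have h3 : (univ : Finset (Fin r × Fin m)).card = r * m := by simp
  rw [h3]
  exact Nat.mul_le_mul_right _ h2

lemma LC_congr (b : Fin n → ZMod q) (v : Fin n) {x y : (Fin n × Bool) × Fin r × Fin m → Bool}
    (h : ∀ a ∈ SV q π v, x a = y a) : LC π b v x ↔ LC π b v y := by
  have h1 : flow (ghd π) gtl v (zsum q x) = flow (ghd π) gtl v (zsum q y) := by
    simp only [flow]
    refine Finset.sum_congr rfl (fun e _ => ?_)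
    by_cases he : dd (ghd π) gtl (Pi.single v (1 : ZMod q)) e = 0
    · rw [he, zero_mul, zero_mul]
    · congr 1
      simp only [zsum]
      refine Finset.sum_congr rfl (fun t _ => Finset.sum_congr rfl (fun j _ => ?_))
      rw [h (e, t, j)]
      simp only [SV, mem_product, mem_univ, and_true, nsupp, mem_filter, true_and]
      exact he
  simp only [LC, h1]

/-- the clauses of the constraint at `v` -/
noncomputable def clausesAt {β : Type} [DecidableEq β]
    (e : (Fin n × Bool) × Fin r × Fin m ≃ β) (b : Fin n → ZMod q) (v : Fin n) :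
    Finset (Finset (β × Bool)) :=
  open Classical in
  ((SV q π v).powerset.filter (fun s => ¬ LC π b v (fun a => decide (a ∈ s)))).image
    (fun s => (SV q π v).image (fun a => (e a, decide (a ∉ s))))

/-- the CNF -/
noncomputable def theCNF {β : Type} [DecidableEq β]
    (e : (Fin n × Bool) × Fin r × Fin m ≃ β) (b : Fin n → ZMod q) :
    Finset (Finset (β × Bool)) :=
  univ.biUnion (clausesAt π e b)

variable {β : Type} [DecidableEq β] (e : (Fin n × Bool) × Fin r × Fin m ≃ β)
  (b : Fin n → ZMod q)

lemma clause_of_LC (v : Fin n) (C : Finset (β × Bool)) (hC : C ∈ clausesAt π e b v)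
    (x : β → Bool) (hx : LC π b v (fun a => x (e a))) : ClauseHolds C x := by
  classical
  simp only [clausesAt, mem_image, mem_filter, mem_powerset] at hC
  obtain ⟨s, ⟨hs, hLC⟩, rfl⟩ := hC
  by_contra hcon
  apply hLC
  refine (LC_congr π b v ?_).mp hx
  intro a ha
  simp only [ClauseHolds, mem_image, not_exists, not_and] at hcon
  have := hcon (e a, decide (a ∉ s)) ⟨a, ha, rfl⟩
  by_cases has : a ∈ s
  · simp only [has, not_true_eq_false, decide_false, Bool.not_eq_false] at this
    simp [has, this]
  · simp only [has, not_false_eq_true, decide_true, Bool.not_eq_true] at this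
    simp [has, this]

lemma LC_of_clauses (v : Fin n) (x : β → Bool)
    (h : ∀ C ∈ clausesAt π e b v, ClauseHolds C x) : LC π b v (fun a => x (e a)) := by
  classical
  by_contra hcon
  let s := (SV q π v).filter (fun a => x (e a) = true)
  have hs : ¬ LC π b v (fun a => decide (a ∈ s)) := by
    intro h1
    apply hcon
    refine (LC_congr π b v ?_).mp h1
    intro a ha
    cases hxa : x (e a) <;> simp [s, ha, hxa]
  obtain ⟨l, hl, hxl⟩ := h ((SV q π v).image (fun a => (e a, decide (a ∉ s)))) (by
    simp only [clausesAt, mem_image, mem_filter, mem_powerset]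
    exact ⟨s, ⟨filter_subset _ _, hs⟩, rfl⟩)
  simp only [mem_image] at hl
  obtain ⟨a, ha, rfl⟩ := hl
  cases hxa : x (e a) <;> simp [s, ha, hxa] at hxl

lemma clausesAt_card (v : Fin n) : (clausesAt π e b v).card ≤ 2 ^ (4 * (r * m)) := by
  classical
  refine card_image_le.trans ((card_filter_le _ _).trans ?_)
  rw [card_powerset]
  exact Nat.pow_le_pow_right (by norm_num) (SV_card π v)

lemma clausesAt_width (v : Fin n) (C : Finset (β × Bool)) (hC : C ∈ clausesAt π e b v) :
    C.card ≤ 4 * (r * m) := by
  classical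
  simp only [clausesAt, mem_image, mem_filter, mem_powerset] at hC
  obtain ⟨s, _, rfl⟩ := hC
  exact card_image_le.trans (SV_card π v)

lemma flow_sum (z : Fin n × Bool → ZMod q) : ∑ v, flow (ghd π) gtl v z = 0 := by
  simp only [flow]
  rw [Finset.sum_comm]
  apply Finset.sum_eq_zero
  intro e _
  rw [← Finset.sum_mul]
  have : ∑ v, dd (ghd π) gtl (Pi.single v (1 : ZMod q)) e = 0 := by
    simp only [dd, Finset.sum_sub_distrib, Pi.single_apply]
    simp
  rw [this, zero_mul]

end cnf

/-- the numerical part: with `y ≥ 1`, fewer than `2 ^ y` sets and `4 y ≤ b` -/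
lemma wide_arith {W : ℕ} {b : ℕ} {y : ℝ} (hy : 1 ≤ y) (hW : (W : ℝ) < 2 ^ y)
    (hb : 4 * y ≤ b) : 2 * (W * 2 ^ b) ≤ 3 ^ b := by
  have h1 : (2 : ℝ) * W ≤ (3 / 2 : ℝ) ^ (b : ℝ) := by
    calc (2 : ℝ) * W ≤ 2 * 2 ^ y := by linarith
      _ ≤ (2 : ℝ) ^ y * 2 ^ y := by
          apply mul_le_mul_of_nonneg_right _ (by positivity)
          calc (2 : ℝ) = 2 ^ (1 : ℝ) := (Real.rpow_one 2).symm
            _ ≤ 2 ^ y := Real.rpow_le_rpow_of_exponent_le (by norm_num) hy
      _ = (4 : ℝ) ^ y := by
          rw [← Real.mul_rpow (by norm_num) (by norm_num)]; norm_num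
      _ ≤ ((3 / 2 : ℝ) ^ (4 : ℝ)) ^ y := by
          apply Real.rpow_le_rpow (by norm_num) _ (by linarith)
          rw [show (4 : ℝ) = ((4 : ℕ) : ℝ) by norm_num, Real.rpow_natCast]
          norm_num
      _ = (3 / 2 : ℝ) ^ (4 * y) := by rw [← Real.rpow_mul (by norm_num)]
      _ ≤ (3 / 2 : ℝ) ^ (b : ℝ) := Real.rpow_le_rpow_of_exponent_le (by norm_num) hb
  rw [Real.rpow_natCast, div_pow, le_div_iff₀ (by positivity)] at h1
  have h2 : ((2 * (W * 2 ^ b) : ℕ) : ℝ) ≤ ((3 ^ b : ℕ) : ℝ) := by
    push_cast
    linarith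
  exact_mod_cast h2

lemma aux (p q r : ℕ) [Fact p.Prime] [Fact q.Prime] (hpq : p ≠ q) (hr : r + 1 = q) (hr2 : r ≤ 2)
    (k : ℕ) :
    ∃ c : ℝ, 0 < c ∧ ∃ n₀ : ℕ, ∀ n : ℕ, n₀ ≤ n →
      ∃ (N : ℕ) (F : Finset (Finset (Fin N × Bool))), N ≤ 12 * n ∧ F.card ≤ 2 ^ 24 * n ∧
        (∀ C ∈ F, C.card ≤ 24) ∧ (¬ ∃ x, ∀ C ∈ F, ClauseHolds C x) ∧
        ∀ (T : ℕ) (L : Fin T → Line p (Fin N)) (G : ℕ), IsRefutation F k L →
          1 ≤ G → (G : ℝ) ≤ c * n →
          (∀ i, ((L i).s : ℝ) ≤ c * n) → (∀ i, (L i).g ≤ G) →
          (2 : ℝ) ^ (c * n) ≤ T ∨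
          (2 : ℝ) ^ (c * n / G) ≤ ((wideTerms L (30 * c * n / G)).card : ℝ) := by
  classical
  have hp : p.Prime := Fact.out
  have hq : q.Prime := Fact.out
  set A : ℕ := k + 1 with hA
  have hA1 : (1 : ℝ) ≤ A := by rw [hA]; push_cast; linarith [(Nat.cast_nonneg k : (0 : ℝ) ≤ k)]
  set δ : ℝ := 1 / (240 * A) with hδ
  have hδ0 : 0 < δ := by positivity
  have hp0 : (2 : ℝ) ≤ p := by exact_mod_cast hp.two_le
  set c : ℝ := δ / (120 * p) with hc
  have hc0 : 0 < c := by positivity
  refine ⟨c, hc0, 960 * A + 960, ?_⟩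
  intro n hn
  have hn25 : 25 ≤ n := by omega
  obtain ⟨π, hπ⟩ := exists_expander hn25
  have hcard : Fintype.card ((Fin n × Bool) × Fin r × Fin 3) = 6 * r * n := by
    simp only [Fintype.card_prod, Fintype.card_fin, Fintype.card_bool]; ring
  let e : (Fin n × Bool) × Fin r × Fin 3 ≃ Fin (6 * r * n) := Fintype.equivFinOfCardEq hcard
  let b : Fin n → ZMod q := fun v => if v.val = 0 then 1 else 0
  have h24 : 4 * (r * 3) ≤ 24 := by omega
  refine ⟨6 * r * n, theCNF π e b, ?_, ?_, ?_, ?_, ?_⟩
  · exact Nat.mul_le_mul_right n (by omega)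
  · calc (theCNF π e b).card ≤ ∑ v, (clausesAt π e b v).card := card_biUnion_le
      _ ≤ ∑ _v : Fin n, 2 ^ 24 := Finset.sum_le_sum (fun v _ =>
          (clausesAt_card π e b v).trans (Nat.pow_le_pow_right (by norm_num) h24))
      _ = 2 ^ 24 * n := by simp [mul_comm]
  · intro C hC
    simp only [theCNF, mem_biUnion, mem_univ, true_and] at hC
    obtain ⟨v, hv⟩ := hC
    exact (clausesAt_width π e b v C hv).trans h24
  · rintro ⟨x, hx⟩
    have h1 : ∀ v, flow (ghd π) gtl v (zsum q (fun a => x (e a))) = b v := by
      intro v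
      apply LC_of_clauses π e b v x
      intro C hC
      apply hx
      simp only [theCNF, mem_biUnion, mem_univ, true_and]
      exact ⟨v, hC⟩
    have h2 := flow_sum π (zsum q (fun a => x (e a)))
    simp only [h1, b] at h2
    have h3 : ∑ v : Fin n, (if v.val = 0 then (1 : ZMod q) else 0) = 1 := by
      rw [Finset.sum_eq_single (⟨0, by omega⟩ : Fin n)]
      · simp
      · intro v _ hv
        rw [if_neg]
        intro h
        exact hv (Fin.ext h)
      · intro h; exact absurd (mem_univ _) h
    rw [h3] at h2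
    exact one_ne_zero h2
  · intro T L G href hG1 hGc hs hg
    by_contra hcon
    push Not at hcon
    obtain ⟨hT, hW⟩ := hcon
    -- the degree
    set d : ℕ := n / (240 * A) with hd
    have hdn : 240 * A * d ≤ n := Nat.mul_div_le n (240 * A)
    have hdn2 : n < 240 * A * (d + 1) := by
      rw [hd]; exact Nat.lt_mul_div_succ n (by positivity)
    have hnr : (0 : ℝ) < n := by
      have : 0 < n := by omega
      exact_mod_cast this
    have hn960 : (960 : ℝ) * A + 960 ≤ n := by
      have : ((960 * A + 960 : ℕ) : ℝ) ≤ n := by exact_mod_cast hn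
      push_cast at this; exact this
    have hδn : 4 ≤ δ * n := by
      rw [hδ, one_div, inv_mul_eq_div, le_div_iff₀ (by positivity)]
      nlinarith
    have hdr : δ * n / 2 ≤ d := by
      have h1 : (n : ℝ) < 240 * A * (d + 1) := by exact_mod_cast hdn2
      have h2 : δ * n < d + 1 := by
        rw [hδ, one_div, inv_mul_lt_iff₀ (by positivity)]
        exact h1
      linarith
    have hdk : 2 * ((k + 1) * d + 4) ≤ n / 60 := by
      have h1 : 240 * (A * d) ≤ n := by rw [← mul_assoc]; exact hdn
      rw [← hA]
      omega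
    set dt : ℕ := d / 2 with hdt
    have hdt1 : δ * n / 8 ≤ dt := by
      have h1 : d ≤ 2 * dt + 1 := by omega
      have h2 : (d : ℝ) ≤ 2 * dt + 1 := by exact_mod_cast h1
      linarith
    have hdt2 : δ * n / 4 ≤ ((d - dt : ℕ) : ℝ) := by
      have h1 : d ≤ 2 * (d - dt) := by omega
      have h2 : (d : ℝ) ≤ 2 * ((d - dt : ℕ) : ℝ) := by exact_mod_cast h1
      linarith
    set S : ℕ := ⌊c * n⌋₊ with hS
    have hcn0 : 0 ≤ c * n := by positivity
    have hSc : (S : ℝ) ≤ c * n := Nat.floor_le hcn0
    have hcδ : c * n * (120 * p) = δ * n := by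
      rw [hc]; field_simp
    have hcn8 : c * n * 240 ≤ δ * n := by
      rw [← hcδ]; nlinarith
    set y : ℝ := c * n / G with hy
    have hG0 : (0 : ℝ) < G := by exact_mod_cast hG1
    have hy1 : 1 ≤ y := by rw [hy, le_div_iff₀ hG0]; linarith
    set bb : ℕ := ⌊5 * y⌋₊ with hbb
    have hbb1 : (bb : ℝ) ≤ 5 * y := Nat.floor_le (by linarith)
    have hbb2 : 4 * y ≤ bb := by
      have := Nat.lt_floor_add_one (5 * y)
      rw [← hbb] at this
      linarith
    set θ : ℕ := ⌊30 * y⌋₊ with hθ
    have hθ1 : (θ : ℝ) ≤ 30 * y := Nat.floor_le (by linarith)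
    have hyeq : 30 * c * n / G = 30 * y := by rw [hy]; ring
    rw [hyeq] at hW
    -- relabelled variables
    let g : Fin (6 * r * n) → ((Fin n × Bool) × Fin r) × Fin 3 := fun a =>
      (((e.symm a).1, (e.symm a).2.1), (e.symm a).2.2)
    have hginj : Function.Injective g := by
      intro a a' h
      apply e.symm.injective
      have h1 := congrArg (fun z => (z.1.1, z.1.2, z.2)) h
      exact h1
    let gl : Fin (6 * r * n) × Bool → (((Fin n × Bool) × Fin r) × Fin 3) × Bool :=
      fun l => (g l.1, l.2)
    have hgl : Function.Injective gl := by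
      rintro ⟨a, s⟩ ⟨a', s'⟩ h
      simp only [gl, Prod.mk.injEq] at h
      exact Prod.ext (hginj h.1) h.2
    let im : Finset (Fin (6 * r * n) × Bool) → Finset ((((Fin n × Bool) × Fin r) × Fin 3) × Bool) :=
      fun U => U.image gl
    have him : Function.Injective im := Finset.image_injective hgl
    have himc : ∀ U, (im U).card = U.card := fun U => card_image_of_injective U hgl
    let τ : ∀ i, Fin (L i).s → Finset ((((Fin n × Bool) × Fin r) × Fin 3) × Bool) := fun i j =>
      im ((L i).gate j)
    let W : Finset (Finset ((((Fin n × Bool) × Fin r) × Fin 3) × Bool)) :=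
      (wideTerms L (30 * y)).image im
    obtain ⟨ρ, hρ1, hρ2⟩ := exists_block (A := (Fin n × Bool) × Fin r) (fun i => (L i).s) τ W
      S dt bb (by
        intro i
        exact Nat.le_floor (hs i)) (by
        intro U hU
        simp only [W, mem_image, wideTerms, mem_filter] at hU
        obtain ⟨U', ⟨_, hU'⟩, rfl⟩ := hU
        rw [himc]
        have h1 : ((6 * bb : ℕ) : ℝ) ≤ (U'.card : ℝ) := by
          push_cast
          linarith
        exact_mod_cast h1) (by
        have h1 : (T : ℝ) * 2 ^ S < 2 ^ dt := by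
          calc (T : ℝ) * 2 ^ S < 2 ^ (c * n) * 2 ^ S :=
                mul_lt_mul_of_pos_right hT (by positivity)
            _ ≤ 2 ^ (c * n) * 2 ^ (c * n) := by
                apply mul_le_mul_of_nonneg_left _ (by positivity)
                rw [← Real.rpow_natCast]
                exact Real.rpow_le_rpow_of_exponent_le (by norm_num) hSc
            _ = 2 ^ (c * n + c * n) := by rw [Real.rpow_add (by norm_num)]
            _ ≤ 2 ^ (dt : ℝ) := by
                apply Real.rpow_le_rpow_of_exponent_le (by norm_num)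
                linarith
            _ = 2 ^ dt := Real.rpow_natCast _ _
        have h2 : T * 2 ^ S < 2 ^ dt := by exact_mod_cast h1
        rw [pow_succ]
        omega) (by
        have h1 : W.card ≤ (wideTerms L (30 * y)).card := card_image_le
        refine wide_arith hy1 ?_ hbb2
        refine lt_of_le_of_lt ?_ hW
        exact_mod_cast h1)
    -- the field
    have hqK : (q : AlgebraicClosure (ZMod p)) ≠ 0 := by
      intro h
      rw [CharP.cast_eq_zero_iff (AlgebraicClosure (ZMod p)) p q] at h
      rw [Nat.prime_dvd_prime_iff_eq hp hq] at h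
      exact hpq h
    have : NeZero (q : ZMod p) := ⟨by
      intro h
      rw [CharP.cast_eq_zero_iff (ZMod p) p q] at h
      rw [Nat.prime_dvd_prime_iff_eq hp hq] at h
      exact hpq h⟩
    obtain ⟨ζ, hζ⟩ := HasEnoughRootsOfUnity.exists_primitiveRoot (AlgebraicClosure (ZMod p)) q
    have hprim := AddChar.zmodChar_primitive_of_primitive_root q hζ
    obtain ⟨⟨i₀, hi₀⟩, hsound⟩ := href
    -- the degree after restriction
    let ρV : (Fin n × Bool) × Fin r × Fin 3 → Bool × Bool := fun v =>
      mrgB ρ ((v.1, v.2.1), v.2.2)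
    have hdeg : ∀ i, toK (AlgebraicClosure (ZMod p)) (fun y' =>
        (L i).eval (fun a => merge ρV y' (e.symm a))) ∈ J (AlgebraicClosure (ZMod p)) d := by
      intro i
      have h1 := line_deg (p := p) (K := AlgebraicClosure (ZMod p)) ρ θ (τ i)
        (fun j => ((L i).sup j).image im)
        (fun j U => (L i).coef j (U.preimage gl hgl.injOn)) (L i).out (by
          intro j U hU hok
          simp only [mem_image] at hU
          obtain ⟨U', hU', rfl⟩ := hU
          by_contra hlt
          push Not at hlt
          refine hρ2 (im U') ?_ hok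
          simp only [W, mem_image]
          refine ⟨U', ?_, rfl⟩
          simp only [wideTerms, mem_filter, mem_biUnion, mem_univ, true_and]
          refine ⟨⟨i, j, hU'⟩, ?_⟩
          rw [himc] at hlt
          have := Nat.lt_of_floor_lt hlt
          exact this)
      have h2 : DD (τ i) ρ + (L i).g * ((p - 1) * θ) ≤ d := by
        have h3 : (L i).g * ((p - 1) * θ) ≤ d - dt := by
          have h4 : (((L i).g * ((p - 1) * θ) : ℕ) : ℝ) ≤ ((d - dt : ℕ) : ℝ) := by
            refine le_trans ?_ hdt2
            have h5 : (((L i).g * ((p - 1) * θ) : ℕ) : ℝ) ≤ ((G * (p * θ) : ℕ) : ℝ) := by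
              have : (L i).g * ((p - 1) * θ) ≤ G * (p * θ) :=
                Nat.mul_le_mul (hg i) (Nat.mul_le_mul_right _ (Nat.sub_le _ _))
              exact_mod_cast this
            refine h5.trans ?_
            push_cast
            have h6 : (G : ℝ) * (p * θ) ≤ G * (p * (30 * y)) := by
              apply mul_le_mul_of_nonneg_left _ hG0.le
              exact mul_le_mul_of_nonneg_left hθ1 (by linarith)
            have h7 : (G : ℝ) * (p * (30 * y)) = c * n * (120 * p) / 4 := by
              rw [hy]; field_simp; ring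
            rw [h7, hcδ] at h6
            exact h6
          exact_mod_cast h4
        have h4 := hρ1 i
        have h5 : dt ≤ d := by omega
        omega
      have h3 := J_mono h2 h1
      have h4 := J_comp (ι := (Fin n × Bool) × Fin r × Fin 3) (α := Bool) h3
        (fun (y' : (Fin n × Bool) × Fin r × Fin 3 → Bool) => fun v => y' (v.1.1, v.1.2, v.2))
        (fun v => (v.1.1, v.1.2, v.2)) (fun v y' z' h => h)
      convert h4 using 1
      funext y'
      have h5 : ∀ U : Finset (Fin (6 * r * n) × Bool),
          tval (im U) (merge (mrgB ρ) (fun v => y' (v.1.1, v.1.2, v.2))) =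
          termVal U (fun a => merge ρV y' (e.symm a)) := by
        intro U
        have h6 := tval_image g U (merge (mrgB ρ) (fun v => y' (v.1.1, v.1.2, v.2)))
        exact h6
      have h6 : (fun j => ∑ U ∈ (L i).sup j,
          if termVal U (fun a => merge ρV y' (e.symm a)) = true then (L i).coef j U else 0) =
          (fun j => ∑ U ∈ ((L i).sup j).image im,
            if tval U (merge (mrgB ρ) (fun v => y' (v.1.1, v.1.2, v.2))) = true then
              (L i).coef j (U.preimage gl hgl.injOn) else 0) := by
        funext j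
        rw [Finset.sum_image (fun U _ U' _ h => him h)]
        refine Finset.sum_congr rfl (fun U _ => ?_)
        have h8 : (im U).preimage gl hgl.injOn = U := by
          ext l
          simp only [im, mem_preimage, mem_image]
          constructor
          · rintro ⟨l', hl', h⟩
            rwa [← hgl h]
          · intro h
            exact ⟨l, h, rfl⟩
        rw [h5, h8]
      have h7 : (fun j => termVal ((L i).gate j) (fun a => merge ρV y' (e.symm a))) =
          (fun j => tval (τ i j) (merge (mrgB ρ) (fun v => y' (v.1.1, v.1.2, v.2)))) := by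
        funext j
        exact (h5 _).symm
      exact congrArg (fun b : Bool => if b = true then (1 : AlgebraicClosure (ZMod p)) else 0)
        (congrArg₂ (L i).out h7 h6)
    obtain ⟨x, hx⟩ := lifted_no_low_degree π _ hprim hqK hr (by omega) hπ b d k hdk
      (fun i (x : (Fin n × Bool) × Fin r × Fin 3 → Bool) => (L i).eval (fun a => x (e.symm a))) (by
        intro i
        rcases hsound i with ⟨C, hC, hCi⟩ | ⟨P, hP1, hP2, hP3⟩
        · left
          simp only [theCNF, mem_biUnion, mem_univ, true_and] at hC
          obtain ⟨v, hv⟩ := hC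
          refine ⟨v, fun x hx => hCi _ ?_⟩
          apply clause_of_LC π e b v C hv
          simpa using hx
        · right
          exact ⟨P, hP1, hP2, fun x hx => hP3 _ hx⟩) ρV (by
        intro e' t
        exact ⟨(ρ (e', t)).1, by simp [ρV, mrgB]⟩) hdeg i₀
    have h1 := hi₀ (fun a => x (e.symm a))
    have h2 : (L i₀).eval (fun a => x (e.symm a)) = true := hx
    rw [h1] at h2
    exact Bool.false_ne_true h2

/-- For every prime `p` and every `k` there are CNFs of constant width and linear size with the
following property. Consider sound refutations (every line follows from at most `k` earlier lines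
or from a clause) in which every line is an arbitrary Boolean function of at most `c n`
conjunctions of literals and at most `G ≤ c n` sums modulo `p` of conjunctions of literals. Every
such refutation has at least `2 ^ (c n)` lines or uses inside the sums at least `2 ^ (c n / G)`
conjunctions of more than `30 c n / G` literals. -/
theorem result (p : ℕ) (hp : p.Prime) (k : ℕ) :
    ∃ c : ℝ, 0 < c ∧ ∃ n₀ : ℕ, ∀ n : ℕ, n₀ ≤ n →
      ∃ (N : ℕ) (F : Finset (Finset (Fin N × Bool))), N ≤ 12 * n ∧ F.card ≤ 2 ^ 24 * n ∧
        (∀ C ∈ F, C.card ≤ 24) ∧ (¬ ∃ x, ∀ C ∈ F, ClauseHolds C x) ∧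
        ∀ (T : ℕ) (L : Fin T → Line p (Fin N)) (G : ℕ), IsRefutation F k L →
          1 ≤ G → (G : ℝ) ≤ c * n →
          (∀ i, ((L i).s : ℝ) ≤ c * n) → (∀ i, (L i).g ≤ G) →
          (2 : ℝ) ^ (c * n) ≤ T ∨
          (2 : ℝ) ^ (c * n / G) ≤ ((wideTerms L (30 * c * n / G)).card : ℝ) := by
  have : Fact p.Prime := ⟨hp⟩
  by_cases h2 : p = 2
  · have : Fact (Nat.Prime 3) := ⟨by norm_num⟩
    exact aux p 3 2 (by omega) rfl le_rfl k
  · have : Fact (Nat.Prime 2) := ⟨Nat.prime_two⟩
    exact aux p 2 1 h2 rfl (by omega) k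

end Pool.Agent.Results.MP_c04246_lc.FewGates
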