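import Pool.Agent.H694R2.SymPhp

set_option autoImplicit false

/-!
# MP_c04246_lc: symmetric refutations of the pigeonhole principle with `MOD_p` gates are
exponentially long when a large power of `p` divides the difference of pigeons and holes

Definitions (beginning of `Pool/Agent/H694R2/SymMod.lean`):

* `Circuit p V 𝒢`: acyclic circuits over the variables `V` with gate set `𝒢`: negation gates,
  disjunction gates and `MOD_(p,a)` gates of unbounded fan-in, any depth, with sharing;
  `mult g c` is the number of times the node `c` is an input of `g`;
* `C.Symmetric A`: the circuit is invariant under the permutations of `A`, which act on the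
  variables and on the gates;
* `Step`: one inference of the sequent calculus LK (unbounded `∨`; clauses used as rules) with the
  rules for `MOD_p` gates: exactly one value, empty sum, adding one input, replacing simultaneously
  all inputs by equivalent ones (unboundedly many premises), and sums of sums;
* `Der C 𝒜 b Γ`: the sequent `Γ` has a (dag-like) derivation from the clauses `𝒜` by sequents of
  at most `b` nodes of `C`.

`PVar A B H` and `phpClauses A B H` (`Pool/Agent/H694R2/SymPhp.lean`) are the variables and clauses
of the onto functional pigeonhole principle with the set `A ⊕ B` of pigeons and the set `H` of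
holes; `Perm A` renames the pigeons in `A`.
-/

namespace Pool.Agent.Results.MP_c04246_lc.SymmetricPHP

open Equiv Pool.Agent.H694R2.SymMod Pool.Agent.H694R2.SymPhp

/-- Let `p` be a prime and let the number of pigeons exceed the number of holes by a multiple of
`p ^ e`. If a circuit with `MOD_p` gates that is invariant under the permutations of the set `A` of
pigeons carries a refutation of the onto functional pigeonhole principle with sequents of at most
`b` nodes, then it has at least `((|A| choose k) / 4)^(1/3)` gates whenever `3 ≤ k`, `2k ≤ p ^ e`
and `|B| + (b+3) k ≤ |H|`. -/
theorem result {A B H 𝒢 : Type} [Fintype A] [DecidableEq A] [Fintype B] [DecidableEq B]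
    [Fintype H] [DecidableEq H] [Fintype 𝒢] [DecidableEq 𝒢] [MulAction (Perm A) 𝒢]
    (p e t b k : ℕ) [Fact p.Prime] (hb : 2 ≤ b) (hk : 3 ≤ k)
    (hcard : Fintype.card A + Fintype.card B = Fintype.card H + t * p ^ e)
    (hkp : 2 * k ≤ p ^ e) (hroom : Fintype.card B + (b + 3) * k ≤ Fintype.card H)
    (C : Circuit p (PVar A B H) 𝒢) (hC : C.Symmetric A)
    (hD : Der C (phpClauses A B H) b ∅) :
    (Fintype.card A).choose k ≤ 4 * (Fintype.card 𝒢) ^ 3 :=
  php_lower_bound hb hk hcard hkp hroom C hC hD

end Pool.Agent.Results.MP_c04246_lc.SymmetricPHP
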